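import Pool.Agent.P.MP_fdc1ac_lc.Basic

namespace Pool.Agent.P.MP_fdc1ac_lc.Ex2

open Cardinal Filter Set

/-- decorations: a literal or a total assignment -/
abbrev D := (ℕ × Bool) ⊕ Finset ℕ

def ext : D → D → Prop
  | .inl l', .inl l => l' = l
  | .inl _, .inr _ => False
  | .inr s, .inl l => decide (l.1 ∈ s) = l.2
  | .inr s', .inr s => s' = s

def Valid (k : ℕ) : D → Prop
  | .inl l => l.1 ≤ k
  | .inr s => s ⊆ Finset.range (k + 1)

def Tot : D → Prop
  | .inl _ => False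
  | .inr _ => True

def dflt : D := .inr ∅

def total : D → D
  | .inl l => .inr (if l.2 then {l.1} else ∅)
  | .inr s => .inr s

theorem ext_refl (d : D) : ext d d := by cases d <;> simp [ext]

theorem ext_trans {a b c : D} (h1 : ext a b) (h2 : ext b c) : ext a c := by
  cases a <;> cases b <;> cases c <;> simp_all [ext]

theorem ext_tot {a b : D} (h : ext a b) (hb : Tot b) : a = b := by
  cases a <;> cases b <;> simp_all [ext, Tot]

theorem ext_lit {a b : D} (h : ext a b) (ha : ¬ Tot a) : a = b := by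
  cases a <;> cases b <;> simp_all [ext, Tot]

theorem total_tot (d : D) : Tot (total d) := by cases d <;> simp [total, Tot]

theorem total_ext (d : D) : ext (total d) d := by
  rcases d with ⟨i, _ | _⟩ | s <;> simp [total, ext]

theorem total_valid {k : ℕ} {d : D} (h : Valid k d) : Valid k (total d) := by
  rcases d with ⟨i, _ | _⟩ | s <;> simp_all [total, Valid]

theorem dflt_valid (k : ℕ) : Valid k dflt := by simp [Valid, dflt]

theorem dflt_tot : Tot dflt := trivial

theorem valid_finite (k : ℕ) : {d : D | Valid k d}.Finite := by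
  have h1 : (Sum.inl '' ((Set.Iic k) ×ˢ (univ : Set Bool)) : Set D).Finite :=
    ((Set.finite_Iic k).prod Set.finite_univ).image _
  have h2 : (Sum.inr '' ((Finset.range (k + 1)).powerset : Set (Finset ℕ)) : Set D).Finite :=
    (Finset.finite_toSet _).image _
  refine (h1.union h2).subset ?_
  rintro (l | s) h
  · exact Or.inl ⟨l, ⟨h, trivial⟩, rfl⟩
  · exact Or.inr ⟨s, Finset.mem_coe.2 (Finset.mem_powerset.2 h), rfl⟩

theorem exists_sep {k : ℕ} (hk : 1 ≤ k) {a b : D} (ha : Valid k a) (hb : Valid k b) :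
    ∃ t, Valid k t ∧ Tot t ∧ ext t a ∧ (¬ ext a b → ¬ ext t b) := by
  rcases a with ⟨i, e⟩ | s
  · simp only [Valid] at ha
    rcases b with ⟨j, f⟩ | s
    · simp only [Valid] at hb
      by_cases hij : i = j
      · subst hij
        refine ⟨total (.inl (i, e)), total_valid ha, total_tot _, total_ext _, ?_⟩
        cases e <;> cases f <;> simp [ext, total]
      · refine ⟨.inr ((if e then {i} else ∅) ∪ (if f then ∅ else {j})), ?_, trivial, ?_, ?_⟩
        · cases e <;> cases f <;> simp [Valid, Finset.insert_subset_iff] <;> omega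
        · cases e <;> cases f <;> simp [ext, hij]
        · cases e <;> cases f <;> simp [ext, hij, Ne.symm hij]
    · obtain ⟨j, hj, hji⟩ : ∃ j, j ≤ k ∧ j ≠ i := by
        by_cases h : i = 0
        · exact ⟨1, hk, by omega⟩
        · exact ⟨0, by omega, by omega⟩
      by_cases hs : j ∈ s
      · refine ⟨total (.inl (i, e)), total_valid ha, total_tot _, total_ext _, fun _ h => ?_⟩
        cases e
        · simp only [total, ext] at h; subst h; simp at hs
        · simp only [total, ext] at h; subst h; simp [hji] at hs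
      · refine ⟨.inr ((if e then {i} else ∅) ∪ {j}), ?_, trivial, ?_, fun _ h => ?_⟩
        · cases e <;> simp [Valid, Finset.insert_subset_iff] <;> omega
        · cases e <;> simp [ext, Ne.symm hji]
        · simp only [ext] at h; subst h; simp at hs
  · exact ⟨.inr s, ha, trivial, ext_refl _, id⟩

@[ext] structure E where
  L : ℕ → ℕ
  q : ℕ → D
  mono : StrictMono L
  valid : ∀ k, Valid k (q k)
  junk : ∀ k < L 0, q k = dflt
  up : ∀ k, L 0 ≤ k → Tot (q k) → Tot (q (k + 1))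

def le (A B : E) : Prop := range A.L ⊆ range B.L ∧ ∀ k, A.L 0 ≤ k → ext (A.q k) (B.q k)

def leStar (A B : E) : Prop :=
  (range A.L \ range B.L).Finite ∧ ∀ᶠ k in atTop, ext (A.q k) (B.q k)

def cut (A : E) : ℕ → ℕ
  | 0 => 0
  | n + 1 => A.L n

def r0 (n : ℕ) (A : E) : Finset ℕ × (ℕ → D) :=
  ((Finset.range n).image A.L, fun k => if k < cut A n then A.q k else dflt)

abbrev AR := {a : Finset ℕ × (ℕ → D) // ∃ n A, r0 n A = a}

def r (n : ℕ) (A : E) : AR := ⟨r0 n A, n, A, rfl⟩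

def leFin (a b : AR) : Prop :=
  a.1.1 ⊆ b.1.1 ∧ ∀ k, (∃ i ∈ a.1.1, i ≤ k) → (∃ j ∈ a.1.1, k < j) → ext (a.1.2 k) (b.1.2 k)

theorem r_surj (a : AR) : ∃ n A, r n A = a := by
  obtain ⟨a, n, A, rfl⟩ := a
  exact ⟨n, A, rfl⟩

theorem cut_congr {n : ℕ} {A B : E} (h : ∀ i < n, A.L i = B.L i) : cut A n = cut B n := by
  cases n with
  | zero => rfl
  | succ n => exact h n (by omega)

theorem cut_mono (A : E) {n m : ℕ} (h : n ≤ m) : cut A n ≤ cut A m := by
  cases n with
  | zero => exact Nat.zero_le _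
  | succ n =>
    cases m with
    | zero => omega
    | succ m => exact A.mono.monotone (by omega)

theorem r_eq_iff {n m : ℕ} {A B : E} :
    r n A = r m B ↔ n = m ∧ (∀ i < n, A.L i = B.L i) ∧ ∀ k < cut A n, A.q k = B.q k := by
  rw [r, r, Subtype.mk.injEq, r0, r0, Prod.mk.injEq]
  constructor
  · rintro ⟨h1, h2⟩
    obtain ⟨rfl, h4⟩ := enum_eq A.mono B.mono h1
    refine ⟨rfl, h4, fun k hk => ?_⟩
    have := congrFun h2 k
    rwa [if_pos hk, if_pos (cut_congr h4 ▸ hk)] at this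
  · rintro ⟨rfl, h2, h3⟩
    refine ⟨Finset.image_congr fun i hi => h2 i (Finset.mem_range.1 hi), ?_⟩
    funext k
    rw [← cut_congr h2]
    split_ifs with h
    · exact h3 k h
    · rfl

theorem lt_cut_of {A : E} {n j k : ℕ} (hj : j < n) (h : k < A.L j) : k < cut A n :=
  h.trans_le (cut_mono A (show j + 1 ≤ n from hj))

theorem leFin_iff {n m : ℕ} {A B : E} :
    leFin (r n A) (r m B) ↔ (∀ i < n, ∃ j < m, A.L i = B.L j) ∧
      ∀ k, A.L 0 ≤ k → k < cut A n → ext (A.q k) (B.q k) := by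
  have hsub : (Finset.range n).image A.L ⊆ (Finset.range m).image B.L ↔
      ∀ i < n, ∃ j < m, A.L i = B.L j := by
    constructor
    · intro h i hi
      obtain ⟨j, hj, hj'⟩ := Finset.mem_image.1
        (h (Finset.mem_image_of_mem _ (Finset.mem_range.2 hi)))
      exact ⟨j, Finset.mem_range.1 hj, hj'.symm⟩
    · intro h y hy
      obtain ⟨i, hi, rfl⟩ := Finset.mem_image.1 hy
      obtain ⟨j, hj, hj'⟩ := h i (Finset.mem_range.1 hi)
      exact Finset.mem_image.2 ⟨j, Finset.mem_range.2 hj, hj'.symm⟩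
  simp only [leFin, r, r0]
  rw [hsub]
  refine and_congr_right fun h => ?_
  constructor
  · intro h2 k h3 h4
    cases n with
    | zero => exact absurd h4 (Nat.not_lt_zero _)
    | succ n =>
      have := h2 k ⟨_, Finset.mem_image_of_mem _ (Finset.mem_range.2 (Nat.succ_pos n)), h3⟩
        ⟨_, Finset.mem_image_of_mem _ (Finset.mem_range.2 (Nat.lt_succ_self n)), h4⟩
      obtain ⟨j, hj, e⟩ := h n (by omega)
      rwa [if_pos h4, if_pos (lt_cut_of hj (e ▸ h4))] at this
  · rintro h2 k ⟨_, hi, hi'⟩ ⟨_, hj, hj'⟩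
    obtain ⟨i, hi0, rfl⟩ := Finset.mem_image.1 hi
    obtain ⟨j, hj0, rfl⟩ := Finset.mem_image.1 hj
    have hj := Finset.mem_range.1 hj0
    obtain ⟨l, hl, e⟩ := h j hj
    rw [if_pos (lt_cut_of hj hj'), if_pos (lt_cut_of hl (e ▸ hj'))]
    exact h2 k ((A.mono.monotone (Nat.zero_le _)).trans hi') (lt_cut_of hj hj')

theorem le_refl' (A : E) : le A A := ⟨subset_rfl, fun _ _ => ext_refl _⟩

theorem L0_le {A B : E} (h : range A.L ⊆ range B.L) : B.L 0 ≤ A.L 0 := by
  obtain ⟨j, hj⟩ := h ⟨0, rfl⟩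
  rw [← hj]; exact B.mono.monotone (Nat.zero_le _)

theorem le_trans' (A B C : E) (h1 : le A B) (h2 : le B C) : le A C :=
  ⟨h1.1.trans h2.1, fun k hk => ext_trans (h1.2 k hk) (h2.2 k ((L0_le h1.1).trans hk))⟩

theorem mem_nbhd {k : ℕ} {C A X : E} :
    X ∈ nbhd le r (r k C) A ↔ le X A ∧ r k X = r k C := by
  constructor
  · rintro ⟨h, n, hn⟩
    obtain rfl := (r_eq_iff.1 hn).1
    exact ⟨h, hn⟩
  · rintro ⟨h, hn⟩
    exact ⟨h, k, hn⟩

theorem r_zero (A B : E) : r 0 A = r 0 B := by simp [r_eq_iff, cut]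

theorem depth_zero {n : ℕ} {C B : E} (h : IsLeast {m | leFin (r 0 C) (r m B)} n) : n = 0 := by
  have : n ≤ 0 := h.2 (show leFin (r 0 C) (r 0 B) by simp [leFin_iff, cut])
  omega

theorem depth_succ {k n : ℕ} {C B : E} (h : IsLeast {m | leFin (r (k + 1) C) (r m B)} n) :
    ∃ n', n = n' + 1 ∧ B.L n' = C.L k ∧ (∀ i ≤ k, ∃ j ≤ n', C.L i = B.L j) ∧
      ∀ l, C.L 0 ≤ l → l < C.L k → ext (C.q l) (B.q l) := by
  obtain ⟨h2, h1⟩ := leFin_iff.1 h.1
  obtain ⟨j, hj, hj'⟩ := h2 k (by omega)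
  have key : ∀ i ≤ k, ∃ j' ≤ j, C.L i = B.L j' := by
    intro i hi
    obtain ⟨j', -, h'⟩ := h2 i (by omega)
    refine ⟨j', ?_, h'⟩
    have := C.mono.monotone hi
    rw [h', hj'] at this
    exact B.mono.le_iff_le.1 this
  have : n ≤ j + 1 := h.2 (show leFin (r (k + 1) C) (r (j + 1) B) from
    leFin_iff.2 ⟨fun i hi => by
      obtain ⟨j', h3, h4⟩ := key i (by omega)
      exact ⟨j', by omega, h4⟩, h1⟩)
  exact ⟨j, by omega, hj'.symm, key, h1⟩

/-- keep `r (n+1) B`, continue with levels `φ` and the totalization of `C`. -/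
def splice (B : E) (n : ℕ) (φ : ℕ → ℕ) (hφ : StrictMono φ) (h : B.L n < φ 0) (C : E) : E where
  L := cat B.L (n + 1) φ
  q := fun k => if k < B.L n then B.q k else total (C.q k)
  mono := cat_strictMono B.mono hφ fun i hi => (B.mono.monotone (by omega)).trans_lt h
  valid := fun k => by
    split_ifs
    · exact B.valid k
    · exact total_valid (C.valid k)
  junk := fun k hk => by
    rw [cat_lt (by omega)] at hk
    rw [if_pos (hk.trans_le (B.mono.monotone (Nat.zero_le _)))]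
    exact B.junk k hk
  up := fun k hk => by
    rw [cat_lt (by omega)] at hk
    split_ifs with h1 h2 h2
    · exact B.up k hk
    · exact fun _ => total_tot _
    · omega
    · exact fun _ => total_tot _

theorem splice_L (B : E) (n : ℕ) (φ : ℕ → ℕ) (hφ : StrictMono φ) (h : B.L n < φ 0) (C : E) :
    (splice B n φ hφ h C).L = cat B.L (n + 1) φ := rfl

theorem splice_q_lt {B : E} {n : ℕ} {φ : ℕ → ℕ} {hφ : StrictMono φ} {h : B.L n < φ 0} {C : E}
    {k : ℕ} (hk : k < B.L n) : (splice B n φ hφ h C).q k = B.q k := if_pos hk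

theorem splice_q_ge {B : E} {n : ℕ} {φ : ℕ → ℕ} {hφ : StrictMono φ} {h : B.L n < φ 0} {C : E}
    {k : ℕ} (hk : ¬ k < B.L n) : (splice B n φ hφ h C).q k = total (C.q k) := if_neg hk

theorem r_splice (B : E) (n : ℕ) (φ : ℕ → ℕ) (hφ : StrictMono φ) (h : B.L n < φ 0) (C : E) :
    r (n + 1) (splice B n φ hφ h C) = r (n + 1) B :=
  r_eq_iff.2 ⟨rfl, fun _ hi => cat_lt hi, fun k hk => splice_q_lt (by
    have : cut (splice B n φ hφ h C) (n + 1) = B.L n := cat_lt (Nat.lt_succ_self n)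
    rwa [this] at hk)⟩

theorem tail_mono (A : E) (n : ℕ) : StrictMono fun j => A.L (n + j) :=
  fun _ _ h => A.mono (by omega)

/-- restrict `A` to a subsequence of its levels -/
def restrict (A : E) (φ : ℕ → ℕ) (hφ : StrictMono φ) (h : A.L 0 ≤ φ 0) : E where
  L := φ
  q := fun k => if k < φ 0 then dflt else A.q k
  mono := hφ
  valid := fun k => by
    split_ifs
    · exact dflt_valid k
    · exact A.valid k
  junk := fun k hk => if_pos hk
  up := fun k hk => by
    rw [if_neg (by omega), if_neg (by omega)]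
    exact A.up k (h.trans hk)

theorem restrict_q {A : E} {φ : ℕ → ℕ} {hφ : StrictMono φ} {h : A.L 0 ≤ φ 0} {k : ℕ}
    (hk : φ 0 ≤ k) : (restrict A φ hφ h).q k = A.q k := if_neg (by omega)

theorem restrict_le {A : E} {φ : ℕ → ℕ} {hφ : StrictMono φ} {h : A.L 0 ≤ φ 0}
    (hs : range φ ⊆ range A.L) : le (restrict A φ hφ h) A :=
  ⟨hs, fun k hk => by rw [restrict_q (φ := φ) hk]; exact ext_refl _⟩

theorem A3_1 (a : AR) (B : E) (n : ℕ) (h : IsLeast {m | leFin a (r m B)} n) :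
    ∀ A ∈ nbhd le r (r n B) B, (nbhd le r a A).Nonempty := by
  obtain ⟨k, C, rfl⟩ := r_surj a
  intro A hA
  cases k with
  | zero => exact ⟨A, mem_nbhd.2 ⟨le_refl' A, r_zero _ _⟩⟩
  | succ k =>
    obtain ⟨n, rfl, h1, h3, h2⟩ := depth_succ h
    obtain ⟨-, hA⟩ := mem_nbhd.1 hA
    obtain ⟨-, hx, hq⟩ := r_eq_iff.1 hA
    have hn := hx n (by omega)
    have hlt : C.L k < A.L (n + 1 + 0) := by
      rw [← h1, ← hn]; exact A.mono (by omega)
    refine ⟨splice C k _ (tail_mono A (n + 1)) hlt A,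
      mem_nbhd.2 ⟨⟨?_, ?_⟩, r_splice _ _ _ _ _ _⟩⟩
    · rintro _ ⟨i, rfl⟩
      rcases cat_cases C.L (fun j => A.L (n + 1 + j)) (k + 1) i with ⟨hi, e⟩ | ⟨j, -, e⟩
      · obtain ⟨j, hj, hj'⟩ := h3 i (by omega)
        exact ⟨j, by rw [hx j (by omega), ← hj']; exact e.symm⟩
      · exact ⟨_, e.symm⟩
    · intro l hl
      rw [splice_L, cat_lt (by omega)] at hl
      by_cases hlk : l < C.L k
      · rw [splice_q_lt hlk, hq l (show l < A.L n by omega)]
        exact h2 l hl hlk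
      · rw [splice_q_ge hlk]; exact total_ext _

theorem A3_2 (a : AR) (B : E) (n : ℕ) (h : IsLeast {m | leFin a (r m B)} n) :
    ∀ A, le A B → (nbhd le r a A).Nonempty →
      ∃ A' ∈ nbhd le r (r n B) B, (nbhd le r a A').Nonempty ∧ nbhd le r a A' ⊆ nbhd le r a A := by
  intro A hAB ⟨C, hCA, k, hk⟩
  subst hk
  cases k with
  | zero =>
    obtain rfl := depth_zero h
    exact ⟨A, mem_nbhd.2 ⟨hAB, r_zero _ _⟩, ⟨C, hCA, 0, rfl⟩, subset_rfl⟩
  | succ k =>
    obtain ⟨n, rfl, h1, h3, h2⟩ := depth_succ h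
    have hlt : B.L n < C.L (k + 1 + 0) := by rw [h1]; exact C.mono (by omega)
    have hCB := le_trans' _ _ _ hCA hAB
    have h0k : C.L 0 ≤ C.L k := C.mono.monotone (Nat.zero_le _)
    have hmem : splice B n _ (tail_mono C (k + 1)) hlt C ∈ nbhd le r (r (n + 1) B) B := by
      refine mem_nbhd.2 ⟨⟨?_, ?_⟩, r_splice _ _ _ _ _ _⟩
      · rintro _ ⟨i, rfl⟩
        rcases cat_cases B.L (fun j => C.L (k + 1 + j)) (n + 1) i with ⟨hi, e⟩ | ⟨j, -, e⟩
        · exact ⟨i, e.symm⟩
        · obtain ⟨l, hl⟩ := hCB.1 ⟨k + 1 + j, rfl⟩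
          exact ⟨l, hl.trans e.symm⟩
      · intro l _
        by_cases hl : l < B.L n
        · rw [splice_q_lt hl]; exact ext_refl _
        · rw [splice_q_ge hl]
          exact ext_trans (total_ext _) (hCB.2 l (by omega))
    refine ⟨_, hmem, A3_1 _ B _ h _ hmem, ?_⟩
    intro X hX
    obtain ⟨hX1, hX2⟩ := mem_nbhd.1 hX
    obtain ⟨-, hx, hq⟩ := r_eq_iff.1 hX2
    have e4 := hx k (by omega)
    have e0 := hx 0 (by omega)
    refine mem_nbhd.2 ⟨le_trans' _ _ _ ⟨?_, ?_⟩ hCA, hX2⟩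
    · rintro _ ⟨i, rfl⟩
      by_cases hi : i < k + 1
      · exact ⟨i, (hx i hi).symm⟩
      · obtain ⟨j, hj⟩ := hX1.1 ⟨i, rfl⟩
        rcases cat_cases B.L (fun j => C.L (k + 1 + j)) (n + 1) j with ⟨hj', e⟩ | ⟨j', -, e⟩
        · exfalso
          have e1 : X.L i = B.L j := hj.symm.trans e
          have e2 : X.L k < X.L i := X.mono (by omega)
          have e3 : B.L j ≤ B.L n := B.mono.monotone (by omega)
          omega
        · exact ⟨_, e.symm.trans hj⟩
    · intro l hl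
      by_cases hlk : l < X.L k
      · rw [hq l hlk]; exact ext_refl _
      · have := hX1.2 l hl
        rw [splice_q_ge (by omega)] at this
        exact ext_trans this (total_ext _)

theorem A4 (a : AR) (B : E) (n : ℕ) (h : IsLeast {m | leFin a (r m B)} n) :
    ∀ k, a ∈ Set.range (r k) →
    ∀ O ⊆ Set.range (r (k + 1)), ∃ A ∈ nbhd le r (r n B) B,
      r (k + 1) '' nbhd le r a A ⊆ O ∨ r (k + 1) '' nbhd le r a A ⊆ Oᶜ := by
  rintro k ⟨C, rfl⟩ O -
  cases k with
  | zero =>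
    obtain rfl := depth_zero h
    let T : ℕ → E := fun m => restrict B (fun j => B.L (m + j)) (tail_mono B _)
      (B.mono.monotone (Nat.zero_le _))
    obtain ⟨φ, hφ, hP⟩ := pigeon fun m => r 1 (T m) ∈ O
    let A : E := restrict B (fun j => B.L (φ j)) (B.mono.comp hφ)
      (B.mono.monotone (Nat.zero_le _))
    have key : ∀ X ∈ nbhd le r (r 0 C) A, ∃ j, r 1 X = r 1 (T (φ j)) := by
      intro X hX
      obtain ⟨⟨h2, -⟩, -⟩ := mem_nbhd.1 hX
      obtain ⟨j, hj⟩ := h2 ⟨0, rfl⟩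
      refine ⟨j, r_eq_iff.2 ⟨rfl, fun i hi => ?_, fun l hl => ?_⟩⟩
      · obtain rfl : i = 0 := by omega
        exact hj.symm
      · rw [X.junk l hl, (T (φ j)).junk l (lt_of_lt_of_eq hl hj.symm)]
    refine ⟨A, mem_nbhd.2 ⟨restrict_le ?_, r_zero _ _⟩, ?_⟩
    · rintro _ ⟨j, rfl⟩; exact ⟨_, rfl⟩
    · rcases hP with hP | hP
      · left
        rintro _ ⟨X, hX, rfl⟩
        obtain ⟨j, hj⟩ := key X hX
        rw [zero_add, hj]; exact hP j
      · right
        rintro _ ⟨X, hX, rfl⟩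
        obtain ⟨j, hj⟩ := key X hX
        rw [zero_add, hj]; exact hP j
  | succ k =>
    obtain ⟨n, rfl, h1, h3, h2⟩ := depth_succ h
    have hlt : ∀ m, C.L k < B.L (n + 1 + m + 0) := fun m => by
      rw [← h1]; exact B.mono (by omega)
    let T : ℕ → E := fun m => splice C k _ (tail_mono B (n + 1 + m)) (hlt m) B
    obtain ⟨φ, hφ, hP⟩ := pigeon fun m => r (k + 2) (T m) ∈ O
    have hψ : StrictMono fun j => B.L (n + 1 + φ j) := fun _ _ h =>
      B.mono (by have := hφ h; omega)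
    let A : E := splice B n _ hψ (B.mono (by omega)) B
    have key : ∀ X ∈ nbhd le r (r (k + 1) C) A, ∃ j, r (k + 2) X = r (k + 2) (T (φ j)) := by
      intro X hX
      obtain ⟨⟨hX1, hX3⟩, hX2⟩ := mem_nbhd.1 hX
      obtain ⟨-, hx, hq⟩ := r_eq_iff.1 hX2
      obtain ⟨j, hj⟩ := hX1 ⟨k + 1, rfl⟩
      have e4 := hx k (by omega)
      rcases cat_cases B.L (fun j => B.L (n + 1 + φ j)) (n + 1) j with ⟨hj', e⟩ | ⟨j', -, e⟩
      · exfalso
        have e1 : X.L (k + 1) = B.L j := hj.symm.trans e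
        have e2 : X.L k < X.L (k + 1) := X.mono (by omega)
        have e3 : B.L j ≤ B.L n := B.mono.monotone (by omega)
        omega
      · refine ⟨j', r_eq_iff.2 ⟨rfl, fun i hi => ?_, fun l _ => ?_⟩⟩
        · by_cases hi' : i < k + 1
          · rw [hx i hi']
            exact (cat_lt (x := C.L) (φ := fun j => B.L (n + 1 + φ j' + j)) hi').symm
          · obtain rfl : i = k + 1 + 0 := by omega
            exact (hj.symm.trans e).trans
              (cat_add C.L (fun j => B.L (n + 1 + φ j' + j)) (k + 1) 0).symm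
        · by_cases hlk : l < X.L k
          · rw [hq l hlk, splice_q_lt (by omega)]
          · have h0 : X.L 0 ≤ X.L k := X.mono.monotone (Nat.zero_le _)
            have := hX3 l (by omega)
            rw [splice_q_ge (by omega)] at this
            rw [splice_q_ge (by omega)]
            exact ext_tot this (total_tot _)
    refine ⟨A, mem_nbhd.2 ⟨⟨?_, ?_⟩, r_splice _ _ _ _ _ _⟩, ?_⟩
    · rintro _ ⟨i, rfl⟩
      rcases cat_cases B.L (fun j => B.L (n + 1 + φ j)) (n + 1) i with ⟨-, e⟩ | ⟨j', -, e⟩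
      · exact ⟨_, e.symm⟩
      · exact ⟨_, e.symm⟩
    · intro l _
      by_cases hl : l < B.L n
      · rw [splice_q_lt hl]; exact ext_refl _
      · rw [splice_q_ge hl]; exact total_ext _
    · rcases hP with hP | hP
      · left
        rintro _ ⟨X, hX, rfl⟩
        obtain ⟨j, hj⟩ := key X hX
        rw [hj]; exact hP j
      · right
        rintro _ ⟨X, hX, rfl⟩
        obtain ⟨j, hj⟩ := key X hX
        rw [hj]; exact hP j

theorem leFin_refl (a : AR) : leFin a a := ⟨subset_rfl, fun _ _ _ => ext_refl _⟩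

theorem leFin_trans (a b c : AR) (h1 : leFin a b) (h2 : leFin b c) : leFin a c := by
  refine ⟨h1.1.trans h2.1, fun k hi hj => ext_trans (h1.2 k hi hj) (h2.2 k ?_ ?_)⟩
  · obtain ⟨i, hi, hi'⟩ := hi; exact ⟨i, h1.1 hi, hi'⟩
  · obtain ⟨i, hi, hi'⟩ := hj; exact ⟨i, h1.1 hi, hi'⟩

theorem finite_funs (N : ℕ) :
    {f : ℕ → D | (∀ k, Valid k (f k)) ∧ ∀ k, N ≤ k → f k = dflt}.Finite := by
  have h1 : {g : Fin N → D | ∀ k : Fin N, g k ∈ {d : D | Valid k d}}.Finite :=
    Set.Finite.pi' fun k : Fin N => valid_finite k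
  refine (h1.image fun g k => if h : k < N then g ⟨k, h⟩ else dflt).subset ?_
  rintro f ⟨h2, h3⟩
  refine ⟨fun k => f k, fun k => h2 k, ?_⟩
  funext k
  by_cases h : k < N
  · simp [h]
  · simp [h, h3 k (by omega)]

theorem finite_bdd (N : ℕ) : {a : AR | ∀ y ∈ a.1.1, y < N}.Finite := by
  apply Set.Finite.of_finite_image (f := Subtype.val) _ Subtype.val_injective.injOn
  have hS : {s : Finset ℕ | s ⊆ Finset.range N}.Finite :=
    (Finset.finite_toSet (Finset.range N).powerset).subset fun s hs =>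
      Finset.mem_coe.2 (Finset.mem_powerset.2 hs)
  refine (hS.prod (finite_funs N)).subset ?_
  rintro _ ⟨a, ha, rfl⟩
  obtain ⟨n, A, rfl⟩ := r_surj a
  refine ⟨fun y hy => Finset.mem_range.2 (ha y hy), fun k => ?_, fun k hk => ?_⟩
  · simp only [r, r0]
    split_ifs
    · exact A.valid k
    · exact dflt_valid k
  · simp only [r, r0]
    refine if_neg fun h => ?_
    cases n with
    | zero => exact absurd h (Nat.not_lt_zero _)
    | succ n =>
      have := ha (A.L n) (Finset.mem_image_of_mem _ (Finset.mem_range.2 (Nat.lt_succ_self n)))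
      have h' : k < A.L n := h
      omega

theorem A2_1 (b : AR) : {a | leFin a b}.Finite :=
  (finite_bdd (b.1.1.sup id + 1)).subset fun _ ha _ hy =>
    Nat.lt_succ_of_le (Finset.le_sup (f := id) (ha.1 hy))

theorem countable_AR : Countable AR := by
  rw [← Set.countable_univ_iff]
  refine (Set.countable_iUnion fun N => (finite_bdd N).countable).mono fun a _ => ?_
  exact Set.mem_iUnion.2 ⟨a.1.1.sup id + 1, fun y hy =>
    Nat.lt_succ_of_le (Finset.le_sup (f := id) hy)⟩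

theorem A2_2 (A B : E) : le A B ↔ ∀ n, ∃ m, leFin (r n A) (r m B) := by
  constructor
  · rintro ⟨h2, h1⟩ n
    choose f hf using fun i => h2 ⟨i, rfl⟩
    refine ⟨f n, leFin_iff.2 ⟨fun i hi => ⟨f i, ?_, (hf i).symm⟩, fun k hk _ => h1 k hk⟩⟩
    apply B.mono.lt_iff_lt.1
    rw [hf, hf]; exact A.mono hi
  · intro h
    constructor
    · rintro _ ⟨i, rfl⟩
      obtain ⟨m, hm⟩ := h (i + 1)
      obtain ⟨j, -, e⟩ := (leFin_iff.1 hm).1 i (by omega)
      exact ⟨j, e.symm⟩
    · intro k hk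
      obtain ⟨m, hm⟩ := h (k + 2)
      exact (leFin_iff.1 hm).2 k hk (Nat.lt_of_succ_le (A.mono.le_apply (x := k + 1)))

theorem A2_3_strict (a b c : AR) (h : IsInit r a b) (hne : a ≠ b) (hbc : leFin b c) :
    ∃ d, IsInit r d c ∧ d ≠ c ∧ leFin a d := by
  obtain ⟨B, n, m, hnm, rfl, rfl⟩ := h
  obtain ⟨k, C, rfl⟩ := r_surj c
  have hlt : n < m := lt_of_le_of_ne hnm (by rintro rfl; exact hne rfl)
  obtain ⟨h2, h1⟩ := leFin_iff.1 hbc
  obtain ⟨j, hj, e⟩ := h2 n hlt
  refine ⟨r j C, ⟨C, j, k, hj.le, rfl, rfl⟩, fun h => hj.ne (r_eq_iff.1 h).1,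
    leFin_iff.2 ⟨fun i hi => ?_, fun l hl hl' => h1 l hl (hl'.trans_le (cut_mono B hnm))⟩⟩
  obtain ⟨j', -, e'⟩ := h2 i (by omega)
  refine ⟨j', ?_, e'⟩
  apply C.mono.lt_iff_lt.1
  rw [← e, ← e']; exact B.mono hi

theorem A2_3 (a b c : AR) (h : IsInit r a b) (hbc : leFin b c) :
    ∃ d, IsInit r d c ∧ leFin a d := by
  by_cases hne : a = b
  · subst hne
    obtain ⟨k, C, rfl⟩ := r_surj c
    exact ⟨r k C, ⟨C, k, k, le_rfl, rfl, rfl⟩, hbc⟩
  · obtain ⟨d, h1, -, h2⟩ := A2_3_strict a b c h hne hbc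
    exact ⟨d, h1, h2⟩

theorem lt_cut (A : E) (k : ℕ) : k < cut A (k + 2) :=
  Nat.lt_of_succ_le (A.mono.le_apply (x := k + 1))

theorem limit (s : ℕ → AR) (h : ∀ N, ∃ A, ∀ n ≤ N, r n A = s n) : ∃ A, ∀ n, r n A = s n := by
  choose A hA using h
  have coh : ∀ n N M, n ≤ N → n ≤ M → r n (A N) = r n (A M) := fun n N M h1 h2 => by
    rw [hA N n h1, hA M n h2]
  have cx : ∀ i N, i < N → (A N).L i = (A (i + 1)).L i := fun i N hi =>
    (r_eq_iff.1 (coh (i + 1) N (i + 1) hi le_rfl)).2.1 i (by omega)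
  have cq : ∀ k N, k < cut (A N) N → (A N).q k = (A (k + 2)).q k := by
    intro k N hk
    rcases le_total N (k + 2) with h | h
    · exact (r_eq_iff.1 (coh N N (k + 2) le_rfl h)).2.2 k hk
    · exact ((r_eq_iff.1 (coh (k + 2) (k + 2) N le_rfl h)).2.2 k (lt_cut _ _)).symm
  refine ⟨⟨fun i => (A (i + 1)).L i, fun k => (A (k + 2)).q k, fun i j hij => ?_,
    fun k => (A _).valid k, fun k hk => ?_, fun k hk => ?_⟩, fun n => ?_⟩
  · show (A (i + 1)).L i < (A (j + 1)).L j
    rw [← cx i (j + 1) (by omega)]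
    exact (A (j + 1)).mono hij
  · exact (A (k + 2)).junk k (by rw [cx 0 (k + 2) (by omega)]; exact hk)
  · show Tot ((A (k + 2)).q k) → Tot ((A (k + 3)).q (k + 1))
    rw [← cq k (k + 3) ((lt_cut _ k).trans_le (cut_mono _ (by omega)))]
    exact (A (k + 3)).up k (by rw [cx 0 (k + 3) (by omega)]; exact hk)
  · rw [← hA n n le_rfl]
    symm
    exact r_eq_iff.2 ⟨rfl, fun i hi => cx i n hi, fun k hk => cq k n hk⟩

/-- an element with prescribed levels and total decorations -/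
def mkTot (φ : ℕ → ℕ) (hφ : StrictMono φ) (t : ℕ → D) (hv : ∀ k, Valid k (t k))
    (ht : ∀ k, Tot (t k)) : E where
  L := φ
  q := fun k => if k < φ 0 then dflt else t k
  mono := hφ
  valid := fun k => by
    split_ifs
    · exact dflt_valid k
    · exact hv k
  junk := fun k hk => if_pos hk
  up := fun k hk _ => by
    rw [if_neg (by omega)]
    exact ht _

theorem mkTot_q {φ : ℕ → ℕ} {hφ : StrictMono φ} {t : ℕ → D} {hv : ∀ k, Valid k (t k)}
    {ht : ∀ k, Tot (t k)} {k : ℕ} (hk : φ 0 ≤ k) : (mkTot φ hφ t hv ht).q k = t k :=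
  if_neg (by omega)

theorem isTRS : IsTopRamseySpace le leFin r where
  nonempty := ⟨mkTot id strictMono_id (fun _ => dflt) dflt_valid fun _ => dflt_tot⟩
  approx_surj := r_surj
  le_refl := le_refl'
  le_trans := le_trans'
  A1_1 := r_zero
  A1_2 := by
    intro A B hne
    by_contra hc
    push Not at hc
    apply hne
    ext1
    · funext i
      exact (r_eq_iff.1 (hc (i + 1))).2.1 i (by omega)
    · funext k
      exact (r_eq_iff.1 (hc (k + 2))).2.2 k (lt_cut _ _)
  A1_3 := by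
    intro A B n m h
    obtain ⟨h1, h2, h3⟩ := r_eq_iff.1 h
    exact ⟨h1, fun k hk => r_eq_iff.2 ⟨rfl, fun i hi => h2 i (by omega),
      fun l hl => h3 l (hl.trans_le (cut_mono A hk.le))⟩⟩
  leFin_refl := leFin_refl
  leFin_trans := leFin_trans
  A2_1 := A2_1
  A2_2 := A2_2
  A2_3 := A2_3
  A2_3_strict := A2_3_strict
  A3_1 := A3_1
  A3_2 := A3_2
  A4 := A4
  closed := closed_of r limit

end Pool.Agent.P.MP_fdc1ac_lc.Ex2
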