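import Pool.Agent.P.MP_fdc1ac_lc.Defs

namespace Pool.Agent.P.MP_fdc1ac_lc

open Cardinal Filter Set

theorem sepLe_refl {R : Type} {le : R → R → Prop} (hr : ∀ x, le x x) (x : R) : sepLe le x x :=
  fun z hz => ⟨z, hr z, hz⟩

theorem sepLe_trans {R : Type} {le : R → R → Prop} (ht : ∀ x y z, le x y → le y z → le x z)
    {x y z : R} (h1 : sepLe le x y) (h2 : sepLe le y z) : sepLe le x z := by
  intro u hu
  obtain ⟨w, hwu, hwy⟩ := h1 u hu
  obtain ⟨w', hw'w, hw'z⟩ := h2 w hwy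
  exact ⟨w', ht _ _ _ hw'w hwu, hw'z⟩

theorem sepLe_of_le {R : Type} {le : R → R → Prop} (hr : ∀ x, le x x)
    (ht : ∀ x y z, le x y → le y z → le x z) {x y : R} (h : le x y) : sepLe le x y :=
  fun z hz => ⟨z, hr z, ht _ _ _ hz h⟩

theorem sepLe_sepLe {R : Type} {le : R → R → Prop} (hr : ∀ x, le x x)
    (ht : ∀ x y z, le x y → le y z → le x z) : sepLe (sepLe le) = sepLe le := by
  funext x y
  apply propext
  constructor
  · intro h z hz
    obtain ⟨w, hwz, hwy⟩ := h z (sepLe_of_le hr ht hz)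
    obtain ⟨w1, h1, h2⟩ := hwz w (hr w)
    obtain ⟨w2, h3, h4⟩ := hwy w1 h1
    exact ⟨w2, ht _ _ _ h3 h2, h4⟩
  · intro h z hz
    exact ⟨z, sepLe_refl hr z, sepLe_trans ht hz h⟩

theorem quotLe_iso_of_eq {R : Type} {s t : R → R → Prop} (h : s = t) :
    Nonempty (quotLe s ≃r quotLe t) := by
  subst h
  exact ⟨RelIso.refl _⟩

theorem isSigmaClosedCoarsening_of {R : Type} {le leStar : R → R → Prop} (hr : ∀ x, le x x)
    (ht : ∀ x y z, le x y → le y z → le x z) (hs : leStar = sepLe le)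
    (hσ : ∀ X : ℕ → R, (∀ n, leStar (X (n + 1)) (X n)) → ∃ Y, ∀ n, leStar Y (X n)) :
    IsSigmaClosedCoarsening le leStar := by
  subst hs
  exact ⟨sepLe_refl hr, fun _ _ _ => sepLe_trans ht, fun _ _ => sepLe_of_le hr ht, hσ,
    quotLe_iso_of_eq (sepLe_sepLe hr ht).symm⟩

/-- closedness criterion -/
theorem closed_of {R AR : Type} (r : ℕ → R → AR)
    (h : ∀ s : ℕ → AR, (∀ N, ∃ A, ∀ n ≤ N, r n A = s n) → ∃ A, ∀ n, r n A = s n) :
    @IsClosed (ℕ → AR) (@Pi.topologicalSpace ℕ (fun _ => AR) (fun _ => ⊥))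
      (Set.range fun A n => r n A) := by
  let _ : TopologicalSpace AR := ⊥
  have : DiscreteTopology AR := ⟨rfl⟩
  apply isClosed_of_closure_subset
  intro s hs
  rw [mem_closure_iff] at hs
  have : ∀ N, ∃ A, ∀ n ≤ N, r n A = s n := by
    intro N
    have ho : IsOpen {t : ℕ → AR | ∀ n ∈ Set.Iic N, t n = s n} := by
      have : {t : ℕ → AR | ∀ n ∈ Set.Iic N, t n = s n} =
          ⋂ n ∈ Set.Iic N, (fun t : ℕ → AR => t n) ⁻¹' {s n} := by
        ext t; simp
      rw [this]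
      exact (Set.finite_Iic N).isOpen_biInter fun n _ =>
        (isOpen_discrete _).preimage (continuous_apply n)
    obtain ⟨t, ht, A, rfl⟩ := hs _ ho (fun n _ => rfl)
    exact ⟨A, fun n hn => ht n hn⟩
  obtain ⟨A, hA⟩ := h s this
  exact ⟨A, funext hA⟩

/-- A chain without lower bound contains a tower. -/
theorem exists_tower_of_chain {R : Type} {s : R → R → Prop} (hr : ∀ x, s x x)
    (ht : ∀ x y z, s x y → s y z → s x z) (C : Set R)
    (hC : ∀ X ∈ C, ∀ Y ∈ C, s X Y ∨ s Y X) (hn : ¬ HasPseudo s C) :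
    ∃ c ∈ tSet s, c ≤ #C := by
  classical
  by_cases hne : Nonempty R
  swap
  · refine ⟨#C, ⟨C, hC, fun X _ => (hne ⟨X⟩).elim, hn, rfl⟩, le_rfl⟩
  let ρ : R → R := fun x => Classical.epsilon fun y => y ∈ C ∧ s x y ∧ s y x
  have hρ : ∀ x ∈ C, ρ x ∈ C ∧ s x (ρ x) ∧ s (ρ x) x := fun x hx =>
    Classical.epsilon_spec (p := fun y => y ∈ C ∧ s x y ∧ s y x) ⟨x, hx, hr x, hr x⟩
  have hρeq : ∀ x y, s x y → s y x → ρ x = ρ y := by
    intro x y h1 h2
    have : (fun z => z ∈ C ∧ s x z ∧ s z x) = fun z => z ∈ C ∧ s y z ∧ s z y := by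
      funext z
      apply propext
      constructor
      · rintro ⟨a, b, c⟩; exact ⟨a, ht _ _ _ h2 b, ht _ _ _ c h1⟩
      · rintro ⟨a, b, c⟩; exact ⟨a, ht _ _ _ h1 b, ht _ _ _ c h2⟩
    simp only [ρ, this]
  refine ⟨#(ρ '' C), ⟨ρ '' C, ?_, ?_, ?_, rfl⟩, Cardinal.mk_image_le⟩
  · rintro _ ⟨x, hx, rfl⟩ _ ⟨y, hy, rfl⟩
    exact hC _ (hρ x hx).1 _ (hρ y hy).1
  · rintro _ ⟨x, hx, rfl⟩ _ ⟨y, hy, rfl⟩ h1 h2
    apply hρeq
    · exact ht _ _ _ (hρ x hx).2.1 (ht _ _ _ h1 (hρ y hy).2.2)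
    · exact ht _ _ _ (hρ y hy).2.1 (ht _ _ _ h2 (hρ x hx).2.2)
  · rintro ⟨Y, hY⟩
    exact hn ⟨Y, fun x hx => ht _ _ _ (hY _ ⟨x, hx, rfl⟩) (hρ x hx).2.2⟩

/-- infinite subsets of the naturals -/
abbrev InfSet := {A : Set ℕ // A.Infinite}

/-- almost inclusion -/
def aLe (A B : InfSet) : Prop := (A.1 \ B.1).Finite

theorem aLe_refl (A : InfSet) : aLe A A := by simp [aLe]

theorem diff_finite_trans {A B C : Set ℕ} (h1 : (A \ B).Finite) (h2 : (B \ C).Finite) :
    (A \ C).Finite := by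
  refine (h1.union h2).subset ?_
  rintro x ⟨hx, hx'⟩
  by_cases h : x ∈ B
  · exact Or.inr ⟨h, hx'⟩
  · exact Or.inl ⟨hx, h⟩

theorem aLe_trans (A B C : InfSet) (h1 : aLe A B) (h2 : aLe B C) : aLe A C :=
  diff_finite_trans h1 h2

theorem exists_split (A : InfSet) : ∃ B : InfSet, aLe B A ∧ ¬ aLe A B := by
  classical
  have hinj : Function.Injective (Nat.nth (· ∈ A.1)) := Nat.nth_injective A.2
  have hmem : ∀ n, Nat.nth (· ∈ A.1) n ∈ A.1 := fun n => Nat.nth_mem_of_infinite A.2 n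
  refine ⟨⟨Set.range fun n => Nat.nth (· ∈ A.1) (2 * n), Set.infinite_range_of_injective ?_⟩,
    ?_, ?_⟩
  · intro a b h
    have := hinj h
    omega
  · refine Set.Finite.subset Set.finite_empty ?_
    rintro x ⟨⟨n, rfl⟩, hx⟩
    exact hx (hmem _)
  · intro h
    refine Set.infinite_range_of_injective (f := fun n => Nat.nth (· ∈ A.1) (2 * n + 1)) ?_
      (h.subset ?_)
    · intro a b h
      have := hinj h
      omega
    · rintro x ⟨n, rfl⟩
      refine ⟨hmem _, ?_⟩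
      rintro ⟨m, hm⟩
      have := hinj hm
      omega

theorem tSet_aLe_nonempty : (tSet aLe).Nonempty := by
  by_contra hne
  have hb : ∀ c, IsChain (fun a b => aLe b a) c → ∃ ub, ∀ a ∈ c, aLe ub a := by
    intro c hc
    by_contra hn
    obtain ⟨t, ht, -⟩ := exists_tower_of_chain aLe_refl aLe_trans c (by
      intro X hX Y hY
      by_cases h : X = Y
      · subst h; exact Or.inl (aLe_refl _)
      · exact (hc hX hY h).symm) hn
    exact hne ⟨t, ht⟩
  obtain ⟨m, hm⟩ := exists_maximal_of_chains_bounded hb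
    (fun {a b c} h1 h2 => aLe_trans _ _ _ h2 h1)
  obtain ⟨B, h1, h2⟩ := exists_split m
  exact h2 (hm B h1)

theorem towerNumber_mem : towerNumber ∈ tSet aLe := csInf_mem tSet_aLe_nonempty

theorem towerNumber_le {c : Cardinal} (h : c ∈ tSet aLe) : towerNumber ≤ c :=
  csInf_le' h

/-- diagonal choice -/
theorem exists_pseudo_seq (A : ℕ → Set ℕ) (Y : ℕ → Set ℕ) (hY : ∀ n, (Y n).Infinite)
    (h : ∀ n, ∀ i ≤ n, (Y n \ A i).Finite) :
    ∃ φ : ℕ → ℕ, StrictMono φ ∧ ∀ i, (Set.range φ \ A i).Finite := by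
  have : ∀ n, ∃ᶠ k in atTop, ∀ i ≤ n, k ∈ A i := by
    intro n
    rw [Nat.frequently_atTop_iff_infinite]
    have hf : (⋃ i ∈ Set.Iic n, (Y n \ A i)).Finite :=
      (Set.finite_Iic n).biUnion fun i hi => h n i hi
    refine ((hY n).sdiff hf).mono ?_
    rintro x ⟨hx, hx'⟩ i hi
    by_contra hc
    exact hx' (Set.mem_biUnion (Set.mem_Iic.2 hi) ⟨hx, hc⟩)
  obtain ⟨φ, hφ, hφ'⟩ := extraction_forall_of_frequently this
  refine ⟨φ, hφ, fun i => ?_⟩
  refine ((Set.finite_Iio i).image φ).subset ?_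
  rintro _ ⟨⟨n, rfl⟩, hn⟩
  refine ⟨n, ?_, rfl⟩
  by_contra hc
  exact hn (hφ' n i (not_lt.1 hc))

theorem aleph0_lt_towerNumber : ℵ₀ < towerNumber := by
  obtain ⟨T, h1, -, h3, h4⟩ := towerNumber_mem
  by_contra hle
  have hc : T.Countable := by
    rw [← Cardinal.le_aleph0_iff_set_countable, h4]
    exact not_lt.1 hle
  apply h3
  rcases T.eq_empty_or_nonempty with rfl | hne
  · exact ⟨⟨Set.univ, Set.infinite_univ⟩, by simp⟩
  obtain ⟨f, rfl⟩ := hc.exists_eq_range hne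
  have : ∀ n, ∃ j, ∀ i ≤ n, aLe (f j) (f i) := by
    intro n
    induction n with
    | zero => exact ⟨0, fun i hi => by obtain rfl : i = 0 := by omega
                                       exact aLe_refl _⟩
    | succ n ih =>
      obtain ⟨j, hj⟩ := ih
      rcases h1 _ ⟨j, rfl⟩ _ ⟨n + 1, rfl⟩ with h | h
      · refine ⟨j, fun i hi => ?_⟩
        rcases Nat.le_succ_iff.1 hi with h' | rfl
        · exact hj i h'
        · exact h
      · refine ⟨n + 1, fun i hi => ?_⟩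
        rcases Nat.le_succ_iff.1 hi with h' | rfl
        · exact aLe_trans _ _ _ h (hj i h')
        · exact aLe_refl _
  choose g hg using this
  obtain ⟨φ, hφ, hφ'⟩ := exists_pseudo_seq (fun i => (f i).1) (fun n => (f (g n)).1)
    (fun n => (f (g n)).2) hg
  exact ⟨⟨Set.range φ, Set.infinite_range_of_injective hφ.injective⟩, by
    rintro _ ⟨i, rfl⟩
    exact hφ' i⟩

/-- two increasing enumerations of the same finite set agree -/
theorem enum_eq {x y : ℕ → ℕ} (hx : StrictMono x) (hy : StrictMono y) {n m : ℕ}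
    (h : (Finset.range n).image x = (Finset.range m).image y) :
    n = m ∧ ∀ i < n, x i = y i := by
  have hnm : n = m := by
    have := congrArg Finset.card h
    rwa [Finset.card_image_of_injective _ hx.injective,
      Finset.card_image_of_injective _ hy.injective, Finset.card_range, Finset.card_range] at this
  subst hnm
  refine ⟨rfl, fun i => ?_⟩
  induction i using Nat.strong_induction_on with
  | _ i ih =>
    intro hi
    have h1 : x i ∈ (Finset.range n).image y := by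
      rw [← h]; exact Finset.mem_image_of_mem _ (Finset.mem_range.2 hi)
    have h2 : y i ∈ (Finset.range n).image x := by
      rw [h]; exact Finset.mem_image_of_mem _ (Finset.mem_range.2 hi)
    obtain ⟨j, hj, hj'⟩ := Finset.mem_image.1 h1
    obtain ⟨k, hk, hk'⟩ := Finset.mem_image.1 h2
    have hji : i ≤ j := by
      by_contra hc
      have hc := not_le.1 hc
      have := ih j hc (hc.trans hi)
      have := hx.injective (this.trans hj')
      omega
    have hki : i ≤ k := by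
      by_contra hc
      have hc := not_le.1 hc
      have := ih k hc (hc.trans hi)
      have := hy.injective (this.symm.trans hk')
      omega
    apply le_antisymm
    · rw [← hk']; exact hx.monotone hki
    · rw [← hj']; exact hy.monotone hji

/-- concatenation of the first `n` terms of `x` with `φ` -/
def cat (x : ℕ → ℕ) (n : ℕ) (φ : ℕ → ℕ) (i : ℕ) : ℕ := if i < n then x i else φ (i - n)

theorem cat_lt {x φ : ℕ → ℕ} {n i : ℕ} (h : i < n) : cat x n φ i = x i := by simp [cat, h]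

theorem cat_add (x φ : ℕ → ℕ) (n j : ℕ) : cat x n φ (n + j) = φ j := by simp [cat]

theorem cat_strictMono {x φ : ℕ → ℕ} {n : ℕ} (hx : StrictMono x) (hφ : StrictMono φ)
    (h : ∀ i < n, x i < φ 0) : StrictMono (cat x n φ) := by
  intro i j hij
  unfold cat
  split_ifs with h1 h2 h2
  · exact hx hij
  · exact (h i h1).trans_le (hφ.monotone (Nat.zero_le _))
  · omega
  · exact hφ (by omega)

theorem cat_cases (x φ : ℕ → ℕ) (n i : ℕ) :
    (i < n ∧ cat x n φ i = x i) ∨ ∃ j, i = n + j ∧ cat x n φ i = φ j := by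
  by_cases h : i < n
  · exact Or.inl ⟨h, cat_lt h⟩
  · obtain ⟨j, rfl⟩ := Nat.exists_eq_add_of_le (not_lt.1 h)
    exact Or.inr ⟨j, rfl, cat_add _ _ _ _⟩

theorem image_cat (x φ : ℕ → ℕ) (n : ℕ) :
    (Finset.range n).image (cat x n φ) = (Finset.range n).image x :=
  Finset.image_congr fun _ hi => cat_lt (Finset.mem_range.1 hi)

theorem pigeon (P : ℕ → Prop) :
    ∃ φ : ℕ → ℕ, StrictMono φ ∧ ((∀ n, P (φ n)) ∨ ∀ n, ¬ P (φ n)) := by
  by_cases h : ∃ᶠ n in atTop, P n
  · obtain ⟨φ, h1, h2⟩ := extraction_of_frequently_atTop h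
    exact ⟨φ, h1, Or.inl h2⟩
  · obtain ⟨φ, h1, h2⟩ := extraction_of_eventually_atTop (not_frequently.1 h)
    exact ⟨φ, h1, Or.inr h2⟩

end Pool.Agent.P.MP_fdc1ac_lc
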