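import Mathlib

namespace Pool.Agent.P.MP_fdc1ac_lc

open Cardinal

/-- `a` is an initial segment of `b` (approximations of one element, `a` not longer). -/
def IsInit {R AR : Type} (r : ℕ → R → AR) (a b : AR) : Prop :=
  ∃ (B : R) (n m : ℕ), n ≤ m ∧ a = r n B ∧ b = r m B

/-- The basic set `[a, B]`. -/
def nbhd {R AR : Type} (le : R → R → Prop) (r : ℕ → R → AR) (a : AR) (B : R) : Set R :=
  {A | le A B ∧ ∃ n, r n A = a}

/-- Todorcevic's axioms A.1 to A.4 and closedness. -/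
structure IsTopRamseySpace {R AR : Type} (le : R → R → Prop) (leFin : AR → AR → Prop)
    (r : ℕ → R → AR) : Prop where
  nonempty : Nonempty R
  approx_surj : ∀ a : AR, ∃ n A, r n A = a
  le_refl : ∀ A, le A A
  le_trans : ∀ A B C, le A B → le B C → le A C
  A1_1 : ∀ A B, r 0 A = r 0 B
  A1_2 : ∀ A B, A ≠ B → ∃ n, r n A ≠ r n B
  A1_3 : ∀ A B n m, r n A = r m B → n = m ∧ ∀ k < n, r k A = r k B
  leFin_refl : ∀ a, leFin a a
  leFin_trans : ∀ a b c, leFin a b → leFin b c → leFin a c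
  A2_1 : ∀ b, {a | leFin a b}.Finite
  A2_2 : ∀ A B, le A B ↔ ∀ n, ∃ m, leFin (r n A) (r m B)
  A2_3 : ∀ a b c, IsInit r a b → leFin b c → ∃ d, IsInit r d c ∧ leFin a d
  A2_3_strict : ∀ a b c, IsInit r a b → a ≠ b → leFin b c →
    ∃ d, IsInit r d c ∧ d ≠ c ∧ leFin a d
  A3_1 : ∀ a B n, IsLeast {m | leFin a (r m B)} n →
    ∀ A ∈ nbhd le r (r n B) B, (nbhd le r a A).Nonempty
  A3_2 : ∀ a B n, IsLeast {m | leFin a (r m B)} n →
    ∀ A, le A B → (nbhd le r a A).Nonempty →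
      ∃ A' ∈ nbhd le r (r n B) B, (nbhd le r a A').Nonempty ∧ nbhd le r a A' ⊆ nbhd le r a A
  A4 : ∀ a B n, IsLeast {m | leFin a (r m B)} n → ∀ k, a ∈ Set.range (r k) →
    ∀ O ⊆ Set.range (r (k + 1)), ∃ A ∈ nbhd le r (r n B) B,
      r (k + 1) '' nbhd le r a A ⊆ O ∨ r (k + 1) '' nbhd le r a A ⊆ Oᶜ
  closed : @IsClosed (ℕ → AR) (@Pi.topologicalSpace ℕ (fun _ => AR) (fun _ => ⊥))
    (Set.range fun A n => r n A)

/-- The separative preorder of a quasi-order. -/
def sepLe {R : Type} (le : R → R → Prop) (x y : R) : Prop :=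
  ∀ z, le z x → ∃ w, le w z ∧ le w y

/-- The order induced by a quasi-order `s` on its classes of mutually related elements. -/
def quotLe {R : Type} (s : R → R → Prop)
    (p q : Quot fun x y => s x y ∧ s y x) : Prop :=
  ∃ x y, Quot.mk _ x = p ∧ Quot.mk _ y = q ∧ s x y

/-- `leStar` is a sigma-closed coarsening of `le` with isomorphic separative quotient. -/
structure IsSigmaClosedCoarsening {R : Type} (le leStar : R → R → Prop) : Prop where
  refl : ∀ A, leStar A A
  trans : ∀ A B C, leStar A B → leStar B C → leStar A C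
  coarsens : ∀ A B, le A B → leStar A B
  sigmaClosed : ∀ X : ℕ → R, (∀ n, leStar (X (n + 1)) (X n)) → ∃ Y, ∀ n, leStar Y (X n)
  sepIso : Nonempty (quotLe (sepLe le) ≃r quotLe (sepLe leStar))

/-- `F` has a pseudointersection. -/
def HasPseudo {R : Type} (leStar : R → R → Prop) (F : Set R) : Prop :=
  ∃ Y, ∀ X ∈ F, leStar Y X

/-- Cardinalities of families with the SFIP and no pseudointersection. -/
def pSet {R : Type} (leStar : R → R → Prop) : Set Cardinal :=
  {c | ∃ F : Set R, (∀ G ⊆ F, G.Finite → HasPseudo leStar G) ∧ ¬ HasPseudo leStar F ∧ #F = c}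

/-- Cardinalities of towers. -/
def tSet {R : Type} (leStar : R → R → Prop) : Set Cardinal :=
  {c | ∃ T : Set R, (∀ X ∈ T, ∀ Y ∈ T, leStar X Y ∨ leStar Y X) ∧
    (∀ X ∈ T, ∀ Y ∈ T, leStar X Y → leStar Y X → X = Y) ∧ ¬ HasPseudo leStar T ∧ #T = c}

/-- The classical tower number. -/
noncomputable def towerNumber : Cardinal :=
  sInf (tSet fun A B : {A : Set ℕ // A.Infinite} => (A.1 \ B.1).Finite)

end Pool.Agent.P.MP_fdc1ac_lc
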