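import Pool.Agent.P.MP_fdc1ac_lc.Basic

namespace Pool.Agent.P.MP_fdc1ac_lc.Ex1

open Cardinal Filter Set

abbrev Lab := ℕ ⊕ ℕ

def labLe : Lab → Lab → Prop
  | .inl k, .inl k' => k = k'
  | .inl k, .inr a => k ≠ a
  | .inr _, .inl _ => False
  | .inr a, .inr b => a = b

theorem labLe_refl (l : Lab) : labLe l l := by cases l <;> simp [labLe]

theorem labLe_trans {a b c : Lab} (h1 : labLe a b) (h2 : labLe b c) : labLe a c := by
  cases a <;> cases b <;> cases c <;> simp_all [labLe]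

@[ext] structure E where
  lab : Lab
  x : ℕ → ℕ
  mono : StrictMono x
  rk : ∀ k, lab = .inl k → k ≤ x 0

def le (A B : E) : Prop := labLe A.lab B.lab ∧ range A.x ⊆ range B.x

def leStar (A B : E) : Prop := labLe A.lab B.lab ∧ (range A.x \ range B.x).Finite

def r0 : ℕ → E → Option (Lab × Finset ℕ)
  | 0, _ => none
  | n + 1, A => some (A.lab, (Finset.range (n + 1)).image A.x)

abbrev AR := {a : Option (Lab × Finset ℕ) // ∃ n A, r0 n A = a}

def r (n : ℕ) (A : E) : AR := ⟨r0 n A, n, A, rfl⟩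

def leFin0 : Option (Lab × Finset ℕ) → Option (Lab × Finset ℕ) → Prop
  | none, _ => True
  | some _, none => False
  | some a, some b => labLe a.1 b.1 ∧ a.2 ⊆ b.2

def leFin (a b : AR) : Prop := leFin0 a.1 b.1

theorem r_surj (a : AR) : ∃ n A, r n A = a := by
  obtain ⟨a, n, A, rfl⟩ := a
  exact ⟨n, A, rfl⟩

theorem r_eq_iff {n m : ℕ} {A B : E} :
    r n A = r m B ↔ n = m ∧ (n ≠ 0 → A.lab = B.lab) ∧ ∀ i < n, A.x i = B.x i := by
  rw [r, r, Subtype.mk.injEq]
  cases n with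
  | zero => cases m <;> simp [r0]
  | succ n =>
    cases m with
    | zero => simp [r0]
    | succ m =>
      simp only [r0, Option.some.injEq, Prod.mk.injEq]
      constructor
      · rintro ⟨h1, h2⟩
        obtain ⟨h3, h4⟩ := enum_eq A.mono B.mono h2
        exact ⟨h3, fun _ => h1, h4⟩
      · rintro ⟨h1, h2, h3⟩
        refine ⟨h2 (by omega), ?_⟩
        rw [← h1]
        exact Finset.image_congr fun i hi => h3 i (Finset.mem_range.1 hi)

theorem leFin_iff {n m : ℕ} {A B : E} :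
    leFin (r n A) (r m B) ↔
      (n ≠ 0 → labLe A.lab B.lab) ∧ ∀ i < n, ∃ j < m, A.x i = B.x j := by
  cases n with
  | zero => simp [leFin, r, r0, leFin0]
  | succ n =>
    cases m with
    | zero =>
      simp only [leFin, r, r0, leFin0, false_iff, not_and]
      intro _ h
      obtain ⟨j, hj, -⟩ := h 0 (by omega)
      omega
    | succ m =>
      simp only [leFin, r, r0, leFin0]
      constructor
      · rintro ⟨h1, h2⟩
        refine ⟨fun _ => h1, fun i hi => ?_⟩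
        obtain ⟨j, hj, hj'⟩ := Finset.mem_image.1
          (h2 (Finset.mem_image_of_mem _ (Finset.mem_range.2 hi)))
        exact ⟨j, Finset.mem_range.1 hj, hj'.symm⟩
      · rintro ⟨h1, h2⟩
        refine ⟨h1 (by omega), fun y hy => ?_⟩
        obtain ⟨i, hi, rfl⟩ := Finset.mem_image.1 hy
        obtain ⟨j, hj, hj'⟩ := h2 i (Finset.mem_range.1 hi)
        exact Finset.mem_image.2 ⟨j, Finset.mem_range.2 hj, hj'.symm⟩

theorem le_refl' (A : E) : le A A := ⟨labLe_refl _, subset_rfl⟩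

theorem le_trans' (A B C : E) (h1 : le A B) (h2 : le B C) : le A C :=
  ⟨labLe_trans h1.1 h2.1, h1.2.trans h2.2⟩

theorem mem_nbhd {k : ℕ} {C A D : E} :
    D ∈ nbhd le r (r k C) A ↔ le D A ∧ r k D = r k C := by
  constructor
  · rintro ⟨h, n, hn⟩
    obtain rfl := (r_eq_iff.1 hn).1
    exact ⟨h, hn⟩
  · rintro ⟨h, hn⟩
    exact ⟨h, k, hn⟩

theorem depth_zero {n : ℕ} {C B : E} (h : IsLeast {m | leFin (r 0 C) (r m B)} n) : n = 0 := by
  have : n ≤ 0 := h.2 (show leFin (r 0 C) (r 0 B) by simp [leFin_iff])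
  omega

theorem depth_succ {k n : ℕ} {C B : E} (h : IsLeast {m | leFin (r (k + 1) C) (r m B)} n) :
    ∃ n', n = n' + 1 ∧ B.x n' = C.x k ∧ labLe C.lab B.lab ∧ ∀ i ≤ k, ∃ j ≤ n', C.x i = B.x j := by
  obtain ⟨h1, h2⟩ := leFin_iff.1 h.1
  obtain ⟨j, hj, hj'⟩ := h2 k (by omega)
  have key : ∀ i ≤ k, ∃ j' ≤ j, C.x i = B.x j' := by
    intro i hi
    obtain ⟨j', -, h'⟩ := h2 i (by omega)
    refine ⟨j', ?_, h'⟩
    have := C.mono.monotone hi
    rw [h', hj'] at this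
    exact B.mono.le_iff_le.1 this
  have : n ≤ j + 1 := h.2 (show leFin (r (k + 1) C) (r (j + 1) B) from
    leFin_iff.2 ⟨h1, fun i hi => by
      obtain ⟨j', h3, h4⟩ := key i (by omega)
      exact ⟨j', by omega, h4⟩⟩)
  exact ⟨j, by omega, hj'.symm, h1 (by omega), key⟩

/-- keep the first `n+1` terms and the label of `B`, continue with `φ`. -/
def splice (B : E) (n : ℕ) (φ : ℕ → ℕ) (hφ : StrictMono φ) (h : B.x n < φ 0) : E where
  lab := B.lab
  x := cat B.x (n + 1) φ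
  mono := cat_strictMono B.mono hφ fun i hi => (B.mono.monotone (by omega)).trans_lt h
  rk := fun k hk => by rw [cat_lt (by omega)]; exact B.rk k hk

theorem r_splice (B : E) (n : ℕ) (φ : ℕ → ℕ) (hφ : StrictMono φ) (h : B.x n < φ 0) :
    r (n + 1) (splice B n φ hφ h) = r (n + 1) B :=
  r_eq_iff.2 ⟨rfl, fun _ => rfl, fun _ hi => cat_lt hi⟩

theorem tail_mono (A : E) (n : ℕ) : StrictMono fun j => A.x (n + j) :=
  fun _ _ h => A.mono (by omega)

theorem A3_1 (a : AR) (B : E) (n : ℕ) (h : IsLeast {m | leFin a (r m B)} n) :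
    ∀ A ∈ nbhd le r (r n B) B, (nbhd le r a A).Nonempty := by
  obtain ⟨k, C, rfl⟩ := r_surj a
  intro A hA
  cases k with
  | zero => exact ⟨A, mem_nbhd.2 ⟨le_refl' A, by simp [r_eq_iff]⟩⟩
  | succ k =>
    obtain ⟨n, rfl, h1, h2, h3⟩ := depth_succ h
    obtain ⟨-, hA⟩ := mem_nbhd.1 hA
    obtain ⟨-, hl, hx⟩ := r_eq_iff.1 hA
    have hlt : C.x k < A.x (n + 1 + 0) := by
      rw [← h1, ← hx n (by omega)]; exact A.mono (by omega)
    refine ⟨splice C k _ (tail_mono A (n + 1)) hlt, mem_nbhd.2 ⟨⟨?_, ?_⟩, r_splice _ _ _ _ _⟩⟩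
    · rw [hl (by omega)]; exact h2
    · rintro _ ⟨i, rfl⟩
      rcases cat_cases C.x (fun j => A.x (n + 1 + j)) (k + 1) i with ⟨hi, e⟩ | ⟨j, -, e⟩
      · obtain ⟨j, hj, hj'⟩ := h3 i (by omega)
        exact ⟨j, by rw [hx j (by omega), ← hj']; exact e.symm⟩
      · exact ⟨_, e.symm⟩

theorem A3_2 (a : AR) (B : E) (n : ℕ) (h : IsLeast {m | leFin a (r m B)} n) :
    ∀ A, le A B → (nbhd le r a A).Nonempty →
      ∃ A' ∈ nbhd le r (r n B) B, (nbhd le r a A').Nonempty ∧ nbhd le r a A' ⊆ nbhd le r a A := by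
  intro A hAB ⟨C, hCA, k, hk⟩
  subst hk
  cases k with
  | zero =>
    obtain rfl := depth_zero h
    exact ⟨A, mem_nbhd.2 ⟨hAB, by simp [r_eq_iff]⟩, ⟨C, hCA, 0, rfl⟩, subset_rfl⟩
  | succ k =>
    obtain ⟨n, rfl, h1, h2, h3⟩ := depth_succ h
    have hlt : B.x n < C.x (k + 1 + 0) := by rw [h1]; exact C.mono (by omega)
    have hCB := le_trans' _ _ _ hCA hAB
    have hmem : splice B n _ (tail_mono C (k + 1)) hlt ∈ nbhd le r (r (n + 1) B) B := by
      refine mem_nbhd.2 ⟨⟨labLe_refl _, ?_⟩, r_splice _ _ _ _ _⟩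
      rintro _ ⟨i, rfl⟩
      rcases cat_cases B.x (fun j => C.x (k + 1 + j)) (n + 1) i with ⟨hi, e⟩ | ⟨j, -, e⟩
      · exact ⟨i, e.symm⟩
      · exact hCB.2 ⟨_, e.symm⟩
    refine ⟨_, hmem, A3_1 _ B _ h _ hmem, ?_⟩
    intro D hD
    obtain ⟨hD1, hD2⟩ := mem_nbhd.1 hD
    obtain ⟨-, hl, hx⟩ := r_eq_iff.1 hD2
    refine mem_nbhd.2 ⟨le_trans' _ _ _ ⟨?_, ?_⟩ hCA, hD2⟩
    · rw [hl (by omega)]; exact labLe_refl _
    · rintro _ ⟨i, rfl⟩
      by_cases hi : i < k + 1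
      · exact ⟨i, (hx i hi).symm⟩
      · obtain ⟨j, hj⟩ := hD1.2 ⟨i, rfl⟩
        rcases cat_cases B.x (fun j => C.x (k + 1 + j)) (n + 1) j with ⟨hj', e⟩ | ⟨j', -, e⟩
        · exfalso
          have e1 : D.x i = B.x j := hj.symm.trans e
          have e2 : D.x k < D.x i := D.mono (by omega)
          have e3 : B.x j ≤ B.x n := B.mono.monotone (by omega)
          have e4 := hx k (by omega)
          omega
        · exact ⟨_, e.symm.trans hj⟩

theorem A4 (a : AR) (B : E) (n : ℕ) (h : IsLeast {m | leFin a (r m B)} n) :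
    ∀ k, a ∈ Set.range (r k) →
    ∀ O ⊆ Set.range (r (k + 1)), ∃ A ∈ nbhd le r (r n B) B,
      r (k + 1) '' nbhd le r a A ⊆ O ∨ r (k + 1) '' nbhd le r a A ⊆ Oᶜ := by
  rintro k ⟨C, rfl⟩ O -
  cases k with
  | zero =>
    obtain rfl := depth_zero h
    obtain ⟨c, hc⟩ : ∃ c, labLe (.inl c) B.lab := by
      rcases B.lab with c | c
      · exact ⟨c, rfl⟩
      · exact ⟨c + 1, by simp [labLe]⟩
    let T : ℕ → E := fun m => ⟨.inl c, fun j => B.x (c + m + j), tail_mono B _, fun k hk => by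
      obtain rfl : c = k := by simpa using hk
      exact le_trans (by omega) B.mono.le_apply⟩
    obtain ⟨φ, hφ, hP⟩ := pigeon fun m => r 1 (T m) ∈ O
    let A : E := ⟨.inl c, fun j => B.x (c + φ j), fun _ _ h => B.mono (by have := hφ h; omega),
      fun k hk => by
        obtain rfl : c = k := by simpa using hk
        exact le_trans (by omega) B.mono.le_apply⟩
    have key : ∀ D ∈ nbhd le r (r 0 C) A, ∃ j, r 1 D = r 1 (T (φ j)) := by
      intro D hD
      obtain ⟨⟨h1, h2⟩, -⟩ := mem_nbhd.1 hD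
      obtain ⟨j, hj⟩ := h2 ⟨0, rfl⟩
      refine ⟨j, r_eq_iff.2 ⟨rfl, fun _ => ?_, fun i hi => ?_⟩⟩
      · revert h1
        rcases D.lab with d | d <;> simp [labLe, A, T]
      · obtain rfl : i = 0 := by omega
        exact hj.symm
    refine ⟨A, mem_nbhd.2 ⟨⟨hc, ?_⟩, by simp [r_eq_iff]⟩, ?_⟩
    · rintro _ ⟨j, rfl⟩; exact ⟨_, rfl⟩
    · rcases hP with hP | hP
      · left
        rintro _ ⟨D, hD, rfl⟩
        obtain ⟨j, hj⟩ := key D hD
        rw [zero_add, hj]; exact hP j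
      · right
        rintro _ ⟨D, hD, rfl⟩
        obtain ⟨j, hj⟩ := key D hD
        rw [zero_add, hj]; exact hP j
  | succ k =>
    obtain ⟨n, rfl, h1, h2, h3⟩ := depth_succ h
    have hlt : ∀ m, C.x k < B.x (n + 1 + m + 0) := fun m => by
      rw [← h1]; exact B.mono (by omega)
    let T : ℕ → E := fun m => splice C k _ (tail_mono B (n + 1 + m)) (hlt m)
    obtain ⟨φ, hφ, hP⟩ := pigeon fun m => r (k + 2) (T m) ∈ O
    have hψ : StrictMono fun j => B.x (n + 1 + φ j) := fun _ _ h =>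
      B.mono (by have := hφ h; omega)
    let A : E := splice B n _ hψ (B.mono (by omega))
    have key : ∀ D ∈ nbhd le r (r (k + 1) C) A, ∃ j, r (k + 2) D = r (k + 2) (T (φ j)) := by
      intro D hD
      obtain ⟨⟨-, hD1⟩, hD2⟩ := mem_nbhd.1 hD
      obtain ⟨-, hl, hx⟩ := r_eq_iff.1 hD2
      obtain ⟨j, hj⟩ := hD1 ⟨k + 1, rfl⟩
      rcases cat_cases B.x (fun j => B.x (n + 1 + φ j)) (n + 1) j with ⟨hj', e⟩ | ⟨j', -, e⟩
      · exfalso
        have e1 : D.x (k + 1) = B.x j := hj.symm.trans e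
        have e2 : D.x k < D.x (k + 1) := D.mono (by omega)
        have e3 : B.x j ≤ B.x n := B.mono.monotone (by omega)
        have e4 := hx k (by omega)
        omega
      · refine ⟨j', r_eq_iff.2 ⟨rfl, fun _ => hl (by omega), fun i hi => ?_⟩⟩
        by_cases hi' : i < k + 1
        · rw [hx i hi']
          exact (cat_lt (x := C.x) (φ := fun j => B.x (n + 1 + φ j' + j)) hi').symm
        · obtain rfl : i = k + 1 + 0 := by omega
          exact (hj.symm.trans e).trans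
            (cat_add C.x (fun j => B.x (n + 1 + φ j' + j)) (k + 1) 0).symm
    refine ⟨A, mem_nbhd.2 ⟨⟨labLe_refl _, ?_⟩, r_splice _ _ _ _ _⟩, ?_⟩
    · rintro _ ⟨i, rfl⟩
      rcases cat_cases B.x (fun j => B.x (n + 1 + φ j)) (n + 1) i with ⟨-, e⟩ | ⟨j', -, e⟩
      · exact ⟨_, e.symm⟩
      · exact ⟨_, e.symm⟩
    · rcases hP with hP | hP
      · left
        rintro _ ⟨D, hD, rfl⟩
        obtain ⟨j, hj⟩ := key D hD
        rw [hj]; exact hP j
      · right
        rintro _ ⟨D, hD, rfl⟩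
        obtain ⟨j, hj⟩ := key D hD
        rw [hj]; exact hP j

theorem r_zero (A B : E) : r 0 A = r 0 B := by simp [r_eq_iff]

theorem leFin_refl (a : AR) : leFin a a := by
  obtain ⟨n, A, rfl⟩ := r_surj a
  exact leFin_iff.2 ⟨fun _ => labLe_refl _, fun i hi => ⟨i, hi, rfl⟩⟩

theorem leFin_trans (a b c : AR) (h1 : leFin a b) (h2 : leFin b c) : leFin a c := by
  obtain ⟨n, A, rfl⟩ := r_surj a
  obtain ⟨m, B, rfl⟩ := r_surj b
  obtain ⟨k, C, rfl⟩ := r_surj c
  obtain ⟨h3, h4⟩ := leFin_iff.1 h1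
  obtain ⟨h5, h6⟩ := leFin_iff.1 h2
  refine leFin_iff.2 ⟨fun hn => ?_, fun i hi => ?_⟩
  · obtain ⟨j, hj, -⟩ := h4 0 (by omega)
    exact labLe_trans (h3 hn) (h5 (by omega))
  · obtain ⟨j, hj, e⟩ := h4 i hi
    obtain ⟨l, hl, e'⟩ := h6 j hj
    exact ⟨l, hl, e.trans e'⟩

theorem A2_1 (b : AR) : {a | leFin a b}.Finite := by
  obtain ⟨m, B, rfl⟩ := r_surj b
  apply Set.Finite.of_finite_image (f := Subtype.val) _ Subtype.val_injective.injOn
  have hL : (insert B.lab (Sum.inl '' Set.Iic (B.x m)) : Set Lab).Finite :=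
    ((Set.finite_Iic _).image _).insert _
  have hS : {s : Finset ℕ | s ⊆ (Finset.range m).image B.x}.Finite :=
    (Finset.finite_toSet ((Finset.range m).image B.x).powerset).subset fun s hs =>
      Finset.mem_coe.2 (Finset.mem_powerset.2 hs)
  refine (((hL.prod hS).image some).insert none).subset ?_
  rintro _ ⟨a, ha, rfl⟩
  obtain ⟨n, A, rfl⟩ := r_surj a
  obtain ⟨h1, h2⟩ := leFin_iff.1 ha
  cases n with
  | zero => exact Or.inl rfl
  | succ n =>
    refine Or.inr ⟨(A.lab, (Finset.range (n + 1)).image A.x), ⟨?_, ?_⟩, rfl⟩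
    · have h1 := h1 (by omega)
      obtain ⟨j, hj, e⟩ := h2 0 (by omega)
      have hrk := A.rk
      revert h1 hrk
      rcases A.lab with c | c
      · intro _ hrk
        refine Or.inr ⟨c, ?_, rfl⟩
        have := hrk c rfl
        have := B.mono hj
        simp only [mem_Iic]; omega
      · rcases B.lab with d | d <;> simp [labLe]
    · intro y hy
      obtain ⟨i, hi, rfl⟩ := Finset.mem_image.1 hy
      obtain ⟨j, hj, e⟩ := h2 i (Finset.mem_range.1 hi)
      exact Finset.mem_image.2 ⟨j, Finset.mem_range.2 hj, e.symm⟩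

theorem A2_2 (A B : E) : le A B ↔ ∀ n, ∃ m, leFin (r n A) (r m B) := by
  constructor
  · rintro ⟨h1, h2⟩ n
    choose f hf using fun i => h2 ⟨i, rfl⟩
    refine ⟨f n, leFin_iff.2 ⟨fun _ => h1, fun i hi => ⟨f i, ?_, (hf i).symm⟩⟩⟩
    apply B.mono.lt_iff_lt.1
    rw [hf, hf]; exact A.mono hi
  · intro h
    constructor
    · obtain ⟨m, hm⟩ := h 1
      exact (leFin_iff.1 hm).1 (by omega)
    · rintro _ ⟨i, rfl⟩
      obtain ⟨m, hm⟩ := h (i + 1)
      obtain ⟨j, -, e⟩ := (leFin_iff.1 hm).2 i (by omega)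
      exact ⟨j, e.symm⟩

theorem A2_3_strict (a b c : AR) (h : IsInit r a b) (hne : a ≠ b) (hbc : leFin b c) :
    ∃ d, IsInit r d c ∧ d ≠ c ∧ leFin a d := by
  obtain ⟨B, n, m, hnm, rfl, rfl⟩ := h
  obtain ⟨k, C, rfl⟩ := r_surj c
  have hlt : n < m := lt_of_le_of_ne hnm (by rintro rfl; exact hne rfl)
  obtain ⟨h1, h2⟩ := leFin_iff.1 hbc
  obtain ⟨j, hj, e⟩ := h2 n hlt
  refine ⟨r j C, ⟨C, j, k, hj.le, rfl, rfl⟩, fun h => hj.ne (r_eq_iff.1 h).1,
    leFin_iff.2 ⟨fun _ => h1 (by omega), fun i hi => ?_⟩⟩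
  obtain ⟨j', -, e'⟩ := h2 i (by omega)
  refine ⟨j', ?_, e'⟩
  apply C.mono.lt_iff_lt.1
  rw [← e, ← e']; exact B.mono hi

theorem A2_3 (a b c : AR) (h : IsInit r a b) (hbc : leFin b c) :
    ∃ d, IsInit r d c ∧ leFin a d := by
  by_cases hne : a = b
  · subst hne
    obtain ⟨k, C, rfl⟩ := r_surj c
    exact ⟨r k C, ⟨C, k, k, le_rfl, rfl, rfl⟩, hbc⟩
  · obtain ⟨d, h1, -, h2⟩ := A2_3_strict a b c h hne hbc
    exact ⟨d, h1, h2⟩

theorem limit (s : ℕ → AR) (h : ∀ N, ∃ A, ∀ n ≤ N, r n A = s n) : ∃ A, ∀ n, r n A = s n := by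
  choose A hA using h
  have coh : ∀ n N M, n ≤ N → n ≤ M → r n (A N) = r n (A M) := fun n N M h1 h2 => by
    rw [hA N n h1, hA M n h2]
  have cx : ∀ i N, i < N → (A N).x i = (A (i + 1)).x i := fun i N hi =>
    (r_eq_iff.1 (coh (i + 1) N (i + 1) hi le_rfl)).2.2 i (by omega)
  refine ⟨⟨(A 1).lab, fun i => (A (i + 1)).x i, fun i j hij => ?_, (A 1).rk⟩, fun n => ?_⟩
  · show (A (i + 1)).x i < (A (j + 1)).x j
    rw [← cx i (j + 1) (by omega)]
    exact (A (j + 1)).mono hij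
  · rw [← hA n n le_rfl]
    refine r_eq_iff.2 ⟨rfl, fun hn => ?_, fun i hi => (cx i n hi).symm⟩
    exact (r_eq_iff.1 (coh 1 1 n le_rfl (by omega))).2.1 (by omega)

def top (a : ℕ) : E := ⟨.inr a, id, strictMono_id, by simp⟩

theorem isTRS : IsTopRamseySpace le leFin r where
  nonempty := ⟨top 0⟩
  approx_surj := r_surj
  le_refl := le_refl'
  le_trans := le_trans'
  A1_1 := r_zero
  A1_2 := by
    intro A B hne
    by_contra hc
    push Not at hc
    apply hne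
    ext1
    · exact (r_eq_iff.1 (hc 1)).2.1 (by omega)
    · funext i
      exact (r_eq_iff.1 (hc (i + 1))).2.2 i (by omega)
  A1_3 := by
    intro A B n m h
    obtain ⟨h1, h2, h3⟩ := r_eq_iff.1 h
    exact ⟨h1, fun k hk => r_eq_iff.2 ⟨rfl, fun _ => h2 (by omega), fun i hi => h3 i (by omega)⟩⟩
  leFin_refl := leFin_refl
  leFin_trans := leFin_trans
  A2_1 := A2_1
  A2_2 := A2_2
  A2_3 := A2_3
  A2_3_strict := A2_3_strict
  A3_1 := A3_1
  A3_2 := A3_2
  A4 := A4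
  closed := closed_of r limit

end Pool.Agent.P.MP_fdc1ac_lc.Ex1
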