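import Pool.Agent.P.MP_fdc1ac_lc.Basic

namespace Pool.Agent.P.MP_fdc1ac_lc

open Cardinal Filter Set

theorem transfinite_choice {I X : Type} [LinearOrder I] [WellFoundedLT I]
    (P : ∀ i : I, (Set.Iio i → X) → X → Prop) (h : ∀ i g, ∃ x, P i g x) :
    ∃ F : I → X, ∀ i, P i (fun j => F j) (F i) := by
  classical
  let F : I → X := (wellFounded_lt (α := I)).fix fun i rec =>
    Classical.choose (h i fun j => rec j j.2)
  refine ⟨F, fun i => ?_⟩
  have : F i = Classical.choose (h i fun j => F j) := WellFounded.fix_eq _ _ _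
  rw [this]
  exact Classical.choose_spec _

/-- literal sequences `f`, `g` clash at `k` -/
def Clash (f g : ℕ → ℕ × Bool) (k : ℕ) : Prop := (f k).1 = (g k).1 ∧ (f k).2 ≠ (g k).2

theorem luzin_step {J : Type} [Countable J] (g : J → ℕ → ℕ × Bool) (hb : ∀ j k, (g j k).1 ≤ k)
    (hd : ∀ i j, i ≠ j → ∀ᶠ k in atTop, (g i k).1 ≠ (g j k).1) :
    ∃ f : ℕ → ℕ × Bool, (∀ k, (f k).1 ≤ k) ∧ (∀ j, ∀ᶠ k in atTop, (f k).1 ≠ (g j k).1) ∧
      ∀ n, {j | ∀ k, n ≤ k → ¬ Clash f (g j) k}.Finite := by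
  classical
  obtain ⟨e, he⟩ := Countable.exists_injective_nat J
  have hfin : ∀ n, {j | e j < n}.Finite := fun n =>
    (Set.finite_Iio n).preimage he.injOn
  have h1 : ∀ j, ∃ m, ∀ i, e i < e j →
      (g j (Nat.pair (e j) m)).1 ≠ (g i (Nat.pair (e j) m)).1 := by
    intro j
    have : ∀ᶠ k in atTop, ∀ i ∈ {i | e i < e j}, (g j k).1 ≠ (g i k).1 :=
      (eventually_all_finite (hfin _)).2 fun i hi => hd j i (by
        rintro rfl; exact lt_irrefl (e j) hi)
    obtain ⟨N, hN⟩ := eventually_atTop.1 this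
    exact ⟨N, fun i hi => hN _ (Nat.right_le_pair _ _) i hi⟩
  choose m hm using h1
  let K : J → ℕ := fun j => Nat.pair (e j) (m j)
  have hK : Function.Injective K := fun i j h => he (Nat.pair_eq_pair.1 h).1
  have hKe : ∀ j, e j ≤ K j := fun j => Nat.left_le_pair _ _
  have h2 : ∀ k, ∃ v, v ≤ k ∧ ∀ j, e j < k → v ≠ (g j k).1 := by
    intro k
    have hc : ((hfin k).toFinset.image fun j => (g j k).1).card < (Finset.range (k + 1)).card := by
      refine Finset.card_image_le.trans_lt ?_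
      rw [Finset.card_range]
      refine Nat.lt_succ_of_le ?_
      conv_rhs => rw [← Finset.card_range k]
      refine Finset.card_le_card_of_injOn e (fun j hj => ?_) he.injOn
      simpa using hj
    obtain ⟨v, hv, hv'⟩ := Finset.exists_mem_notMem_of_card_lt_card hc
    refine ⟨v, Nat.le_of_lt_succ (Finset.mem_range.1 hv), fun j hj h => hv' ?_⟩
    exact Finset.mem_image.2 ⟨j, by simpa using hj, h.symm⟩
  choose v hv hv' using h2
  let f : ℕ → ℕ × Bool := fun k =>
    if h : ∃ j, K j = k then ((g h.choose k).1, !(g h.choose k).2) else (v k, true)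
  have hfK : ∀ j, f (K j) = ((g j (K j)).1, !(g j (K j)).2) := by
    intro j
    have h : ∃ i, K i = K j := ⟨j, rfl⟩
    have : h.choose = j := hK h.choose_spec
    simp only [f, dif_pos h, this]
  refine ⟨f, fun k => ?_, fun j => ?_, fun n => ?_⟩
  · by_cases h : ∃ j, K j = k
    · obtain ⟨j, rfl⟩ := h
      rw [hfK]; exact hb _ _
    · simp only [f, dif_neg h]; exact hv k
  · have hf : (K '' {i | e i < e j + 1}).Finite := (hfin _).image K
    have : ∀ᶠ k in atTop, k ∉ K '' {i | e i < e j + 1} := by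
      rw [← Nat.cofinite_eq_atTop]; exact hf.compl_mem_cofinite
    filter_upwards [this, eventually_gt_atTop (e j)] with k hk hk'
    by_cases h : ∃ j, K j = k
    · obtain ⟨i, rfl⟩ := h
      rw [hfK]
      refine hm i j ?_
      by_contra hc
      exact hk ⟨i, show e i < e j + 1 by omega, rfl⟩
    · simp only [f, dif_neg h]; exact hv' k j hk'
  · refine (hfin n).subset fun j hj => ?_
    by_contra hc
    refine hj (K j) ((not_lt.1 hc).trans (hKe j)) ?_
    unfold Clash
    rw [hfK]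
    simp

/-- the index type, a well order of type omega one -/
abbrev W1 : Type := (Ordinal.omega.{0} 1).ToType

theorem mk_W1 : #W1 = ℵ₁ := by simp

theorem countable_Iio_W1 (i : W1) : (Set.Iio i).Countable := by
  rw [← Cardinal.le_aleph0_iff_set_countable, ← Cardinal.lt_aleph_one_iff, ← mk_W1]
  exact Cardinal.mk_Iio_lt i (by simp)

theorem exists_luzin : ∃ F : W1 → ℕ → ℕ × Bool, (∀ i k, (F i k).1 ≤ k) ∧
    (∀ i j, i ≠ j → ∀ᶠ k in atTop, (F i k).1 ≠ (F j k).1) ∧
    ∀ i n, {j | j < i ∧ ∀ k, n ≤ k → ¬ Clash (F i) (F j) k}.Finite := by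
  obtain ⟨F, hF⟩ := transfinite_choice (I := W1) (X := ℕ → ℕ × Bool)
    (fun i g f => (∀ j k, (g j k).1 ≤ k) →
      (∀ a b, a ≠ b → ∀ᶠ k in atTop, (g a k).1 ≠ (g b k).1) →
      (∀ k, (f k).1 ≤ k) ∧ (∀ j, ∀ᶠ k in atTop, (f k).1 ≠ (g j k).1) ∧
        ∀ n, {j | ∀ k, n ≤ k → ¬ Clash f (g j) k}.Finite) (by
      intro i g
      have := (countable_Iio_W1 i).to_subtype
      by_cases h : (∀ j k, (g j k).1 ≤ k) ∧
        (∀ a b, a ≠ b → ∀ᶠ k in atTop, (g a k).1 ≠ (g b k).1)
      · obtain ⟨f, hf⟩ := luzin_step g h.1 h.2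
        exact ⟨f, fun _ _ => hf⟩
      · exact ⟨fun _ => (0, true), fun h1 h2 => (h ⟨h1, h2⟩).elim⟩)
  have key : ∀ i, (∀ k, (F i k).1 ≤ k) ∧
      (∀ j : Set.Iio i, ∀ᶠ k in atTop, (F i k).1 ≠ (F j k).1) ∧
        ∀ n, {j : Set.Iio i | ∀ k, n ≤ k → ¬ Clash (F i) (F j) k}.Finite := by
    intro i
    induction i using WellFoundedLT.induction with
    | ind i ih =>
      refine hF i (fun j => (ih j j.2).1) fun a b hab => ?_
      rcases lt_or_gt_of_ne (Subtype.coe_ne_coe.2 hab) with h | h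
      · exact ((ih b b.2).2.1 ⟨a, h⟩).mono fun k hk => hk.symm
      · exact (ih a a.2).2.1 ⟨b, h⟩
  refine ⟨F, fun i => (key i).1, fun i j hij => ?_, fun i n => ?_⟩
  · rcases lt_or_gt_of_ne hij with h | h
    · exact ((key j).2.1 ⟨i, h⟩).mono fun k hk => hk.symm
    · exact (key i).2.1 ⟨j, h⟩
  · refine (((key i).2.2 n).image Subtype.val).subset ?_
    rintro j ⟨h1, h2⟩
    exact ⟨⟨j, h1⟩, h2, rfl⟩

/-- In an uncountable subset of `W1` some element has infinitely many predecessors in the set. -/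
theorem exists_infinite_pred {S : Set W1} (hS : ¬ S.Countable) :
    ∃ i ∈ S, {j | j < i ∧ j ∈ S}.Infinite := by
  have hinf : S.Infinite := fun h => hS h.countable
  obtain ⟨T, hTS, hTc, hT⟩ := hinf.exists_subset_countable_infinite
  have hU : (⋃ t ∈ T, Set.Iic t).Countable := hTc.biUnion fun t _ => by
    rw [← Set.Iio_insert]; exact (countable_Iio_W1 t).insert t
  obtain ⟨i, hi, hi'⟩ : ∃ i ∈ S, i ∉ ⋃ t ∈ T, Set.Iic t := by
    by_contra hc
    push Not at hc
    exact hS (hU.mono hc)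
  refine ⟨i, hi, hT.mono fun t ht => ⟨?_, hTS ht⟩⟩
  by_contra hc
  exact hi' (Set.mem_biUnion ht (not_lt.1 hc))

end Pool.Agent.P.MP_fdc1ac_lc
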