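import Pool.Agent.P.MP_fdc1ac_lc.Ex2
import Pool.Agent.P.MP_fdc1ac_lc.Luzin

namespace Pool.Agent.P.MP_fdc1ac_lc.Ex2

open Cardinal Filter Set

theorem leStar_refl (A : E) : leStar A A := ⟨by simp, Eventually.of_forall fun _ => ext_refl _⟩

theorem leStar_trans (A B C : E) (h1 : leStar A B) (h2 : leStar B C) : leStar A C :=
  ⟨diff_finite_trans h1.1 h2.1, by
    filter_upwards [h1.2, h2.2] with k a b using ext_trans a b⟩

theorem range_inf (A : E) : (range A.L).Infinite := infinite_range_of_injective A.mono.injective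

theorem exists_enum (c : ℕ) (Y : Set ℕ) (hY : Y.Infinite) :
    ∃ φ : ℕ → ℕ, StrictMono φ ∧ c ≤ φ 0 ∧ range φ ⊆ Y := by
  obtain ⟨φ, h1, h2⟩ := extraction_of_frequently_atTop (Nat.frequently_atTop_iff_infinite.2 hY)
  refine ⟨fun j => φ (c + j), fun _ _ h => h1 (by omega), le_trans (by omega) h1.le_apply, ?_⟩
  rintro _ ⟨j, rfl⟩; exact h2 _

theorem leStar_eq : leStar = sepLe le := by
  funext A B
  apply propext
  constructor
  · rintro ⟨h2, h1⟩ Z hZ
    obtain ⟨N, hN⟩ := eventually_atTop.1 h1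
    have hinf : (range Z.L ∩ range B.L).Infinite := by
      refine ((range_inf Z).sdiff h2).mono ?_
      rintro y ⟨hy, hy'⟩
      refine ⟨hy, ?_⟩
      by_contra hc
      exact hy' ⟨hZ.1 hy, hc⟩
    obtain ⟨φ, hφ, h0, hs⟩ := exists_enum (N + Z.L 0) _ hinf
    refine ⟨restrict Z φ hφ (by omega), restrict_le (hs.trans inter_subset_left),
      hs.trans inter_subset_right, fun k hk => ?_⟩
    have hk : φ 0 ≤ k := hk
    rw [restrict_q hk]
    exact ext_trans (hZ.2 k (by omega)) (hN k (by omega))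
  · intro h
    constructor
    · by_contra hn
      obtain ⟨φ, hφ, h0, hs⟩ := exists_enum (A.L 0) _ hn
      obtain ⟨W, hW, hW'⟩ := h (restrict A φ hφ h0) (restrict_le (hs.trans sdiff_subset))
      exact (hs (hW.1 ⟨0, rfl⟩)).2 (hW'.1 ⟨0, rfl⟩)
    · have : ∀ k, ∃ t, Valid k t ∧ Tot t ∧ ext t (A.q k) ∧
          (1 ≤ k → ¬ ext (A.q k) (B.q k) → ¬ ext t (B.q k)) := by
        intro k
        by_cases hk : 1 ≤ k
        · obtain ⟨t, a, b, c, d⟩ := exists_sep hk (A.valid k) (B.valid k)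
          exact ⟨t, a, b, c, fun _ => d⟩
        · exact ⟨total (A.q k), total_valid (A.valid k), total_tot _, total_ext _,
            fun h => (hk h).elim⟩
      choose t hv ht he hs using this
      obtain ⟨W, hW, hW'⟩ := h (mkTot A.L A.mono t hv ht) ⟨subset_rfl, fun k hk => by
        rw [mkTot_q (φ := A.L) hk]; exact he k⟩
      filter_upwards [eventually_ge_atTop 1, eventually_ge_atTop (W.L 0)] with k h1 h2
      by_contra hc
      apply hs k h1 hc
      have h3 := hW.2 k h2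
      rw [mkTot_q (φ := A.L) ((L0_le hW.1).trans h2)] at h3
      rw [← ext_tot h3 (ht k)]
      exact hW'.2 k h2

theorem lit_or_tot (A : E) : (∀ᶠ k in atTop, Tot (A.q k)) ∨ ∀ᶠ k in atTop, ¬ Tot (A.q k) := by
  by_cases h : ∃ k, A.L 0 ≤ k ∧ Tot (A.q k)
  · obtain ⟨k, hk, hk'⟩ := h
    left
    refine eventually_atTop.2 ⟨k, fun l hl => ?_⟩
    induction hl with
    | refl => exact hk'
    | step hl ih => exact A.up _ (hk.trans hl) ih
  · right
    exact eventually_atTop.2 ⟨A.L 0, fun l hl hc => h ⟨l, hl, hc⟩⟩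

theorem exists_q_chain (T : Set E) (hT : ∀ X ∈ T, ∀ Y ∈ T, leStar X Y ∨ leStar Y X) :
    ∃ t : ℕ → D, (∀ k, Valid k (t k)) ∧ ∀ X ∈ T, ∀ᶠ k in atTop, ext (t k) (X.q k) := by
  by_cases h : ∃ X ∈ T, ∀ᶠ k in atTop, Tot (X.q k)
  · obtain ⟨X, hX, hc⟩ := h
    refine ⟨X.q, X.valid, fun Y hY => ?_⟩
    rcases hT X hX Y hY with h | h
    · exact h.2
    · filter_upwards [h.2, hc] with k a b
      rw [ext_tot a b]; exact ext_refl _
  · rcases T.eq_empty_or_nonempty with rfl | ⟨X, hX⟩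
    · exact ⟨fun _ => dflt, dflt_valid, by simp⟩
    · refine ⟨X.q, X.valid, fun Y hY => ?_⟩
      rcases hT X hX Y hY with h' | h'
      · exact h'.2
      · have := (lit_or_tot Y).resolve_left fun hc => h ⟨Y, hY, hc⟩
        filter_upwards [h'.2, this] with k a b
        rw [ext_lit a b]; exact ext_refl _

theorem exists_lower (T : Set E) (Y : Set ℕ) (hY : Y.Infinite)
    (h1 : ∀ X ∈ T, (Y \ range X.L).Finite) (t : ℕ → D) (hv : ∀ k, Valid k (t k))
    (h2 : ∀ X ∈ T, ∀ᶠ k in atTop, ext (t k) (X.q k)) : HasPseudo leStar T := by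
  obtain ⟨φ, hφ, -, hs⟩ := exists_enum 0 Y hY
  refine ⟨mkTot φ hφ (fun k => total (t k)) (fun k => total_valid (hv k)) fun k => total_tot _,
    fun X hX => ⟨(h1 X hX).subset (sdiff_subset_sdiff_left hs), ?_⟩⟩
  filter_upwards [h2 X hX, eventually_ge_atTop (φ 0)] with k a b
  rw [mkTot_q b]
  exact ext_trans (total_ext _) a

def toInf (A : E) : InfSet := ⟨range A.L, range_inf A⟩

theorem hasPseudo_of_chain (T : Set E) (hT : ∀ X ∈ T, ∀ Y ∈ T, leStar X Y ∨ leStar Y X)
    (h : HasPseudo aLe (toInf '' T)) : HasPseudo leStar T := by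
  obtain ⟨t, hv, ht⟩ := exists_q_chain T hT
  obtain ⟨Y, hY⟩ := h
  exact exists_lower T Y.1 Y.2 (fun X hX => hY _ ⟨X, hX, rfl⟩) t hv ht

theorem tower_lower {c : Cardinal} (hc : c ∈ tSet leStar) : towerNumber ≤ c := by
  obtain ⟨T, h1, -, h3, rfl⟩ := hc
  obtain ⟨t, ht, ht'⟩ := exists_tower_of_chain aLe_refl aLe_trans (toInf '' T) (by
    rintro _ ⟨X, hX, rfl⟩ _ ⟨Y, hY, rfl⟩
    exact (h1 X hX Y hY).imp (fun h => h.1) (fun h => h.1))
    (fun h => h3 (hasPseudo_of_chain T h1 h))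
  exact (towerNumber_le ht).trans (ht'.trans Cardinal.mk_image_le)

noncomputable def ofInf (A : InfSet) : E :=
  mkTot (Nat.nth (· ∈ A.1)) (Nat.nth_strictMono A.2) (fun _ => dflt) dflt_valid fun _ => dflt_tot

theorem range_ofInf (A : InfSet) : range (ofInf A).L = A.1 := Nat.range_nth_of_infinite A.2

theorem ofInf_q (A : InfSet) (k : ℕ) : (ofInf A).q k = dflt := by simp [ofInf, mkTot]

theorem ofInf_inj : Function.Injective ofInf := fun A B h => by
  apply Subtype.ext
  rw [← range_ofInf, ← range_ofInf, h]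

theorem leStar_ofInf {A B : InfSet} : leStar (ofInf A) (ofInf B) ↔ aLe A B := by
  unfold leStar aLe
  rw [range_ofInf, range_ofInf]
  exact ⟨fun h => h.1, fun h => ⟨h, Eventually.of_forall fun k => by
    rw [ofInf_q, ofInf_q]; exact ext_refl _⟩⟩

theorem tower_mem : towerNumber ∈ tSet leStar := by
  obtain ⟨T, h1, h2, h3, h4⟩ := towerNumber_mem
  refine ⟨ofInf '' T, ?_, ?_, ?_, ?_⟩
  · rintro _ ⟨X, hX, rfl⟩ _ ⟨Y, hY, rfl⟩
    simpa only [leStar_ofInf] using h1 X hX Y hY
  · rintro _ ⟨X, hX, rfl⟩ _ ⟨Y, hY, rfl⟩ a b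
    rw [h2 X hX Y hY (leStar_ofInf.1 a) (leStar_ofInf.1 b)]
  · rintro ⟨Y, hY⟩
    refine h3 ⟨toInf Y, fun X hX => ?_⟩
    have := (hY _ ⟨X, hX, rfl⟩).1
    rwa [range_ofInf] at this
  · rw [Cardinal.mk_image_eq ofInf_inj, h4]

theorem pseudo_of_seq (A Y : ℕ → E) (h : ∀ n, ∀ i ≤ n, leStar (Y n) (A i)) :
    HasPseudo leStar (range A) := by
  classical
  obtain ⟨φ, hφ, hφ'⟩ := exists_pseudo_seq (fun i => range (A i).L) (fun n => range (Y n).L)
    (fun n => range_inf _) (fun n i hi => (h n i hi).1)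
  let P : ℕ → ℕ → Prop := fun k n => ∀ i ≤ n, ext ((Y n).q k) ((A i).q k)
  refine exists_lower _ (range φ) (infinite_range_of_injective hφ.injective) ?_
    (fun k => (Y (Nat.findGreatest (P k) k)).q k) (fun k => (Y _).valid k) ?_
  · rintro _ ⟨i, rfl⟩; exact hφ' i
  · rintro _ ⟨i, rfl⟩
    have : ∀ᶠ k in atTop, ∀ j ∈ Set.Iic i, ext ((Y i).q k) ((A j).q k) :=
      (eventually_all_finite (Set.finite_Iic i)).2 fun j hj => (h i j hj).2
    filter_upwards [this, eventually_ge_atTop i] with k a b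
    have hP : P k i := fun j hj => a j hj
    exact Nat.findGreatest_spec (P := P k) b hP i (Nat.le_findGreatest b hP)

theorem sigmaClosed (X : ℕ → E) (h : ∀ n, leStar (X (n + 1)) (X n)) :
    ∃ Y, ∀ n, leStar Y (X n) := by
  have hle : ∀ n, ∀ i ≤ n, leStar (X n) (X i) := by
    intro n i hi
    induction hi with
    | refl => exact leStar_refl _
    | step _ ih => exact leStar_trans _ _ _ (h _) ih
  obtain ⟨Y, hY⟩ := pseudo_of_seq X X hle
  exact ⟨Y, fun n => hY _ ⟨n, rfl⟩⟩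

theorem p_lower {c : Cardinal} (hc : c ∈ pSet leStar) : ℵ₁ ≤ c := by
  obtain ⟨F, h1, h2, rfl⟩ := hc
  by_contra hlt
  have hc : F.Countable := by
    rw [← Cardinal.le_aleph0_iff_set_countable, ← Cardinal.lt_aleph_one_iff]
    exact not_le.1 hlt
  rcases F.eq_empty_or_nonempty with rfl | hne
  · exact h2 (h1 _ subset_rfl finite_empty)
  obtain ⟨A, rfl⟩ := hc.exists_eq_range hne
  have : ∀ n, ∃ Y, ∀ i ≤ n, leStar Y (A i) := by
    intro n
    obtain ⟨Y, hY⟩ := h1 (A '' Set.Iic n) (image_subset_range _ _) ((Set.finite_Iic n).image _)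
    exact ⟨Y, fun i hi => hY _ ⟨i, hi, rfl⟩⟩
  choose Y hY using this
  exact h2 (pseudo_of_seq A Y hY)

/-- the element given by a sequence of literals -/
def ofLit (f : ℕ → ℕ × Bool) (hf : ∀ k, (f k).1 ≤ k) : E where
  L := id
  q := fun k => .inl (f k)
  mono := strictMono_id
  valid := hf
  junk := fun _ hk => absurd hk (Nat.not_lt_zero _)
  up := fun _ _ h => h

theorem ext_clash {t : D} {f g : ℕ → ℕ × Bool} {k : ℕ} (h1 : ext t (.inl (f k)))
    (h2 : ext t (.inl (g k))) : ¬ Clash f g k := by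
  rintro ⟨a, b⟩
  rcases t with l | s
  · simp only [ext] at h1 h2
    exact b (by rw [← h1, ← h2])
  · simp only [ext] at h1 h2
    exact b (by rw [← h1, ← h2, a])

theorem p_mem : ℵ₁ ∈ pSet leStar := by
  classical
  obtain ⟨F, hb, hd, hl⟩ := exists_luzin
  let X : W1 → E := fun i => ofLit (F i) (hb i)
  have hX : Function.Injective X := by
    intro i j h
    by_contra hij
    obtain ⟨k, hk⟩ := (hd i j hij).exists
    have := congrFun (congrArg E.q h) k
    simp only [X, ofLit, Sum.inl.injEq] at this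
    exact hk (by rw [this])
  refine ⟨range X, ?_, ?_, by rw [Cardinal.mk_range_eq _ hX, mk_W1]⟩
  · intro G hG hfin
    have hJ : (X ⁻¹' G).Finite := hfin.preimage hX.injOn
    refine exists_lower G univ infinite_univ (fun Y hY => ?_)
      (fun k => .inr ((hJ.toFinset.filter fun j => (F j k).2 = true).image fun j => (F j k).1))
      (fun k => ?_) fun Y hY => ?_
    · obtain ⟨i, rfl⟩ := hG hY
      simp [X, ofLit]
    · intro y hy
      obtain ⟨j, -, rfl⟩ := Finset.mem_image.1 hy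
      exact Finset.mem_range.2 (Nat.lt_succ_of_le (hb j k))
    · obtain ⟨i, rfl⟩ := hG hY
      have : ∀ᶠ k in atTop, ∀ j ∈ X ⁻¹' G, j ≠ i → (F j k).1 ≠ (F i k).1 :=
        (eventually_all_finite hJ).2 fun j _ => by
          by_cases h : j = i
          · exact Eventually.of_forall fun _ h' => (h' h).elim
          · exact (hd j i h).mono fun _ h' _ => h'
      filter_upwards [this] with k hk
      show decide (_ ∈ _) = (F i k).2
      cases hb' : (F i k).2
      · rw [decide_eq_false_iff_not]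
        intro hmem
        obtain ⟨j, hj, e⟩ := Finset.mem_image.1 hmem
        obtain ⟨hj1, hj2⟩ := Finset.mem_filter.1 hj
        by_cases hji : j = i
        · subst hji; rw [hb'] at hj2; exact absurd hj2 (by simp)
        · exact hk j (by simpa using hj1) hji e
      · rw [decide_eq_true_iff]
        exact Finset.mem_image.2 ⟨i, Finset.mem_filter.2 ⟨by simpa using hY, hb'⟩, rfl⟩
  · rintro ⟨Y, hY⟩
    have hU : (⋃ n : ℕ, {i : W1 | ∀ k, n ≤ k → ext (Y.q k) (.inl (F i k))}) = Set.univ := by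
      refine eq_univ_of_forall fun i => ?_
      obtain ⟨n, hn⟩ := eventually_atTop.1 (hY _ ⟨i, rfl⟩).2
      exact mem_iUnion.2 ⟨n, hn⟩
    have : ∃ n : ℕ, ¬ {i : W1 | ∀ k, n ≤ k → ext (Y.q k) (.inl (F i k))}.Countable := by
      by_contra hc
      push Not at hc
      have h1 := Set.countable_iUnion hc
      rw [hU, ← Cardinal.le_aleph0_iff_set_countable, Cardinal.mk_univ, mk_W1] at h1
      exact absurd h1 (not_le.2 Cardinal.aleph0_lt_aleph_one)
    obtain ⟨n, hn⟩ := this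
    obtain ⟨i, hi, hinf⟩ := exists_infinite_pred hn
    refine hinf ((hl i n).subset ?_)
    rintro j ⟨h1, h2⟩
    exact ⟨h1, fun k hk => ext_clash (hi k hk) (h2 k hk)⟩

theorem main : ∃ (R AR : Type) (le leStar : R → R → Prop) (leFin : AR → AR → Prop)
    (r : ℕ → R → AR), IsTopRamseySpace le leFin r ∧ IsSigmaClosedCoarsening le leStar ∧
      Countable AR ∧ leStar = sepLe le ∧
      IsLeast (pSet leStar) ℵ₁ ∧ IsLeast (tSet leStar) towerNumber :=
  ⟨E, AR, le, leStar, leFin, r, isTRS,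
    isSigmaClosedCoarsening_of le_refl' le_trans' leStar_eq sigmaClosed, countable_AR, leStar_eq,
    ⟨p_mem, fun _ => p_lower⟩, ⟨tower_mem, fun _ => tower_lower⟩⟩

end Pool.Agent.P.MP_fdc1ac_lc.Ex2
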